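import Pool.Agent.H8.VR.Small
import Pool.Agent.H8.VM.A3a_Lower

/-! F4: few matroids have few isolated nonbases and few other nonbases; lower bound for the number
of matroids. -/

open scoped BigOperators
open Filter

namespace Pool.Agent.H8.VR

open Pool.Agent.H28.Johnson Pool.Agent.H28.KW Pool.Agent.H28.Windows Pool.Agent.H8.VM
open Pool.Agent.H13.VM

/-- the complement of a stable family is the family of bases of a (sparse paving) matroid -/
theorem stable_isMat {n r : ℕ} (hr : 1 ≤ r) (hrn : r + 1 ≤ n) {I : Finset (Finset (Fin n))}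
    (hI : I ∈ stables n r) : IsMat n r (Base n r \ I) := by
  classical
  have hst := (mem_stables.mp hI).2
  refine ⟨Finset.sdiff_subset, ?_, ?_⟩
  · -- two adjacent `r`-sets
    obtain ⟨T, hT⟩ : ∃ T : Finset (Fin n), T.card = r - 1 := by
      obtain ⟨T, _, hT⟩ := Finset.exists_subset_card_eq
        (s := (Finset.univ : Finset (Fin n))) (n := r - 1) (by simp; omega)
      exact ⟨T, hT⟩
    have hc : 2 ≤ (Tᶜ).card := by
      rw [Finset.card_compl, Fintype.card_fin]; omega
    obtain ⟨y, hy, z, hz, hyz⟩ := Finset.one_lt_card.mp hc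
    rw [Finset.mem_compl] at hy hz
    have h1 : insert y T ∈ Base n r := by
      rw [mem_Base, Finset.card_insert_of_notMem hy]; omega
    have h2 : insert z T ∈ Base n r := by
      rw [mem_Base, Finset.card_insert_of_notMem hz]; omega
    have h3 : adj r (insert y T) (insert z T) := adj_insert (by omega) hy hz hyz
    by_cases h4 : insert y T ∈ I
    · exact ⟨insert z T, Finset.mem_sdiff.mpr ⟨h2, fun h5 => hst _ h4 _ h5 h3⟩⟩
    · exact ⟨insert y T, Finset.mem_sdiff.mpr ⟨h1, h4⟩⟩
  · intro X hX Y hY x hx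
    rw [Finset.mem_sdiff] at hX hY hx
    have hXc := mem_Base.mp hX.1
    have hYc := mem_Base.mp hY.1
    have hcard : (X.erase x).card + 1 = r := by
      rw [Finset.card_erase_add_one hx.1]; exact hXc
    have hins : ∀ y, y ∈ Y \ X → insert y (X.erase x) ∈ Base n r := by
      intro y hy
      rw [Finset.mem_sdiff] at hy
      rw [mem_Base, Finset.card_insert_of_notMem fun h => hy.2 (Finset.mem_of_mem_erase h)]
      exact hcard
    by_cases h1 : (Y \ X).card ≤ 1
    · -- `Y = X - x + y`
      have h0 : (Y \ X).card = (X \ Y).card := by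
        have e1 := Finset.card_sdiff_add_card_inter X Y
        have e2 := Finset.card_sdiff_add_card_inter Y X
        rw [Finset.inter_comm] at e2
        omega
      have h2 : 0 < (X \ Y).card := Finset.card_pos.mpr ⟨x, Finset.mem_sdiff.mpr hx⟩
      obtain ⟨y, hy⟩ := Finset.card_eq_one.mp (by omega : (Y \ X).card = 1)
      obtain ⟨x', hx'⟩ := Finset.card_eq_one.mp (by omega : (X \ Y).card = 1)
      have hxx : x = x' := by
        have : x ∈ X \ Y := Finset.mem_sdiff.mpr hx
        rw [hx', Finset.mem_singleton] at this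
        exact this
      have hyY : y ∈ Y \ X := by rw [hy]; exact Finset.mem_singleton_self y
      refine ⟨y, hyY, ?_⟩
      have hYe : insert y (X.erase x) = Y := by
        ext z
        rw [Finset.mem_insert, Finset.mem_erase]
        constructor
        · rintro (rfl | ⟨h3, h4⟩)
          · exact (Finset.mem_sdiff.mp hyY).1
          · by_contra h5
            have : z ∈ X \ Y := Finset.mem_sdiff.mpr ⟨h4, h5⟩
            rw [hx', Finset.mem_singleton] at this
            exact h3 (this.trans hxx.symm)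
        · intro hz
          by_cases hzX : z ∈ X
          · exact Or.inr ⟨fun h => hx.2 (h ▸ hz), hzX⟩
          · left
            have : z ∈ Y \ X := Finset.mem_sdiff.mpr ⟨hz, hzX⟩
            rw [hy, Finset.mem_singleton] at this
            exact this
      rw [hYe, Finset.mem_sdiff]
      exact hY
    · push Not at h1
      obtain ⟨y, hy, z, hz, hyz⟩ := Finset.one_lt_card.mp h1
      have hy' := Finset.mem_sdiff.mp hy
      have hz' := Finset.mem_sdiff.mp hz
      have hadj : adj r (insert y (X.erase x)) (insert z (X.erase x)) :=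
        adj_insert hcard (fun h => hy'.2 (Finset.mem_of_mem_erase h))
          (fun h => hz'.2 (Finset.mem_of_mem_erase h)) hyz
      by_cases h4 : insert y (X.erase x) ∈ I
      · exact ⟨z, hz, Finset.mem_sdiff.mpr ⟨hins z hz, fun h5 => hst _ h4 _ h5 hadj⟩⟩
      · exact ⟨y, hy, Finset.mem_sdiff.mpr ⟨hins y hy, h4⟩⟩

theorem stables_le_Mats {n r : ℕ} (hr : 1 ≤ r) (hrn : r + 1 ≤ n) :
    (stables n r).card ≤ (Mats n r).card := by
  classical
  refine Finset.card_le_card_of_injOn (fun I => Base n r \ I) ?_ ?_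
  · intro I hI
    rw [Finset.mem_coe, mem_Mats]
    exact stable_isMat hr hrn hI
  · intro I hI J hJ h
    have hI' := (mem_stables.mp (Finset.mem_coe.mp hI)).1
    have hJ' := (mem_stables.mp (Finset.mem_coe.mp hJ)).1
    have h' : Base n r \ I = Base n r \ J := h
    rw [← Finset.sdiff_sdiff_eq_self hI', ← Finset.sdiff_sdiff_eq_self hJ', h']

/-- lower bound for the number of matroids -/
theorem mats_lower {n r : ℕ} (hr : 1 ≤ r) (hrn : r + 1 ≤ n) :
    (2 : ℝ) ^ ((n.choose r : ℝ) / n) ≤ ((Mats n r).card : ℝ) := by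
  have h1 := stables_lower (n := n) (r := r) (by omega) (by omega)
  have hne : (stables n r).Nonempty := ⟨∅, by rw [mem_stables]; exact ⟨Finset.empty_subset _, by
    intro a ha; simp at ha⟩⟩
  have hpos : (0 : ℝ) < ((stables n r).card : ℝ) := by exact_mod_cast Finset.card_pos.mpr hne
  have h2 : (2 : ℝ) ^ ((n.choose r : ℝ) / n) ≤ ((stables n r).card : ℝ) := by
    rw [Real.rpow_def_of_pos (by norm_num)]
    calc Real.exp (Real.log 2 * ((n.choose r : ℝ) / n)) ≤
        Real.exp (Real.log ((stables n r).card)) := by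
          apply Real.exp_le_exp.mpr
          rw [mul_comm]
          exact h1
      _ = ((stables n r).card : ℝ) := Real.exp_log hpos
  exact h2.trans (by exact_mod_cast stables_le_Mats hr hrn)

open Classical in
/-- few subsets with few elements -/
theorem few_sets {α : Type*} (B : Finset α) (x w : ℝ) (hx0 : 0 < x) (hx1 : x ≤ 1) :
    ((B.powerset.filter fun W => (W.card : ℝ) ≤ w).card : ℝ) ≤
      Real.exp (x * B.card - w * Real.log x) := by
  have h1 : ∑ W ∈ B.powerset, x ^ W.card = (x + 1) ^ B.card := by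
    have := Finset.sum_pow_mul_eq_add_pow x 1 B
    simpa using this
  have h2 : ((B.powerset.filter fun W => (W.card : ℝ) ≤ w).card : ℝ) * Real.exp (w * Real.log x) ≤
      ∑ W ∈ B.powerset, x ^ W.card := by
    rw [← nsmul_eq_mul]
    refine le_trans (Finset.card_nsmul_le_sum _ (fun W => x ^ W.card) _ fun W hW => ?_)
      (Finset.sum_le_sum_of_subset_of_nonneg (Finset.filter_subset _ _)
        fun _ _ _ => by positivity)
    have hWw := (Finset.mem_filter.mp hW).2
    have e1 : x ^ W.card = Real.exp (W.card * Real.log x) := by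
      rw [← Real.log_pow, Real.exp_log (by positivity)]
    rw [e1]
    apply Real.exp_le_exp.mpr
    have hlog : Real.log x ≤ 0 := Real.log_nonpos hx0.le hx1
    nlinarith
  have h3 : (x + 1) ^ B.card ≤ Real.exp (x * B.card) := by
    have h4 : x + 1 ≤ Real.exp x := Real.add_one_le_exp x
    calc (x + 1) ^ B.card ≤ (Real.exp x) ^ B.card := pow_le_pow_left₀ (by positivity) h4 _
      _ = Real.exp (x * B.card) := by rw [← Real.exp_nat_mul, mul_comm]
  have h4 : ((B.powerset.filter fun W => (W.card : ℝ) ≤ w).card : ℝ) * Real.exp (w * Real.log x) ≤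
      Real.exp (x * B.card) := (h2.trans (le_of_eq h1)).trans h3
  have h5 : Real.exp (x * B.card - w * Real.log x) =
      Real.exp (x * B.card) / Real.exp (w * Real.log x) := Real.exp_sub _ _
  rw [h5, le_div_iff₀ (Real.exp_pos _)]
  exact h4

open Classical in
/-- F4 -/
theorem few_iso : ∃ κ : ℝ, 0 < κ ∧ ∀ᶠ n : ℕ in atTop, ∀ r : ℕ,
    49 * n ≤ 100 * r → 2 * r ≤ n →
      (((Mats n r).filter fun B =>
        ((WW r B).card : ℝ) ≤ (n.choose r : ℝ) / (n * Real.sqrt n) ∧
        ((iso r B).card : ℝ) ≤ κ * ((n.choose r : ℝ) / n)).card : ℝ) *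
        (2 : ℝ) ^ ((1 / 2) * ((n.choose r : ℝ) / n)) ≤ ((Mats n r).card : ℝ) := by
  obtain ⟨κ, hκ, hev⟩ := few_small_two (1 / 4) (by norm_num)
  refine ⟨κ, hκ, ?_⟩
  have hlim : ∀ᶠ n : ℕ in atTop,
      (1 + 3 / 2 * Real.log (n : ℝ)) / Real.sqrt (n : ℝ) ≤ Real.log 2 / 4 := by
    have h1 : Tendsto (fun x : ℝ => (1 + 3 / 2 * Real.log x) / Real.sqrt x) atTop (nhds 0) := by
      have h2 : Tendsto (fun x : ℝ => Real.log x / x ^ (1 / 2 : ℝ)) atTop (nhds 0) :=
        (isLittleO_log_rpow_atTop (by norm_num : (0 : ℝ) < 1 / 2)).tendsto_div_nhds_zero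
      have h3 : Tendsto (fun x : ℝ => 1 / x ^ (1 / 2 : ℝ)) atTop (nhds 0) := by
        have := tendsto_rpow_neg_atTop (by norm_num : (0 : ℝ) < 1 / 2)
        refine this.congr' ?_
        filter_upwards [eventually_gt_atTop 0] with x hx
        rw [Real.rpow_neg hx.le, ← one_div]
      have h4 := h3.add (h2.const_mul (3 / 2))
      rw [mul_zero, add_zero] at h4
      refine h4.congr' ?_
      filter_upwards [eventually_gt_atTop 0] with x hx
      rw [Real.sqrt_eq_rpow]
      ring
    exact (h1.comp tendsto_natCast_atTop_atTop).eventually_le_const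
      (by have := Real.log_pos (by norm_num : (1 : ℝ) < 2); positivity)
  filter_upwards [hev, hlim, eventually_ge_atTop 100] with n hn hlim hn100 r h49 h2
  have hn0 : (0 : ℝ) < n := by
    have : 0 < n := by omega
    exact_mod_cast this
  set N : ℝ := (n.choose r : ℝ) with hNdef
  have hN0 : 0 ≤ N := Nat.cast_nonneg _
  have hsq : 0 < Real.sqrt n := Real.sqrt_pos.mpr hn0
  set A := (Mats n r).filter fun B => ((WW r B).card : ℝ) ≤ N / (n * Real.sqrt n) ∧
      ((iso r B).card : ℝ) ≤ κ * (N / n) with hA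
  -- the count
  have hcard : A.card ≤ ((Base n r).powerset.filter fun W =>
      (W.card : ℝ) ≤ N / (n * Real.sqrt n)).card *
      ((stabs r (Base n r)).filter fun I => (I.card : ℝ) ≤ κ * (N / n)).card := by
    rw [← Finset.card_product]
    refine Finset.card_le_card_of_injOn (fun B => (WW r B, iso r B)) ?_ ?_
    · intro B hB
      rw [Finset.mem_coe, hA, Finset.mem_filter] at hB
      rw [Finset.mem_coe, Finset.mem_product, Finset.mem_filter, Finset.mem_filter,
        Finset.mem_powerset]
      refine ⟨⟨?_, hB.2.1⟩, ?_, hB.2.2⟩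
      · intro X hX
        rw [mem_WW, mem_NB] at hX
        exact mem_Base.mpr hX.1.1
      · rw [mem_stabs]
        refine ⟨?_, ?_⟩
        · intro X hX
          rw [mem_iso, mem_NB] at hX
          exact mem_Base.mpr hX.1.1
        · intro a ha b hb
          rw [mem_iso] at ha hb
          exact ha.2 b hb.1
    · intro B hB C hC h
      rw [Finset.mem_coe, hA, Finset.mem_filter, mem_Mats] at hB hC
      have h' := Prod.ext_iff.mp h
      simp only at h'
      have hNB : NB r B = NB r C := by
        have e : ∀ D : Finset (Finset (Fin n)), NB r D = WW r D ∪ iso r D := by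
          intro D
          rw [WW, Finset.sdiff_union_of_subset]
          exact Finset.filter_subset _ _
        rw [e B, e C, h'.1, h'.2]
      rw [NB, NB] at hNB
      rw [← Finset.sdiff_sdiff_eq_self hB.1.1, ← Finset.sdiff_sdiff_eq_self hC.1.1, hNB]
  -- the numbers
  have h1 := hn r h49 h2 (Base n r) subset_rfl
  have hx0 : 0 < 1 / ((n : ℝ) * Real.sqrt n) := by positivity
  have hx1 : 1 / ((n : ℝ) * Real.sqrt n) ≤ 1 := by
    rw [div_le_one (by positivity)]
    have e1 : (1 : ℝ) ≤ n := by
      have : 1 ≤ n := by omega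
      exact_mod_cast this
    have e2 : 1 ≤ Real.sqrt n := by
      rw [← Real.sqrt_one]
      exact Real.sqrt_le_sqrt e1
    nlinarith
  have h3 := few_sets (Base n r) (1 / ((n : ℝ) * Real.sqrt n)) (N / (n * Real.sqrt n)) hx0 hx1
  rw [card_Base, ← hNdef] at h3
  have h4 : 1 / ((n : ℝ) * Real.sqrt n) * N - N / (n * Real.sqrt n) *
      Real.log (1 / ((n : ℝ) * Real.sqrt n)) ≤ Real.log 2 * (1 / 4 * (N / n)) := by
    have e1 : Real.log (1 / ((n : ℝ) * Real.sqrt n)) = -(3 / 2 * Real.log n) := by
      rw [one_div, Real.log_inv, Real.log_mul hn0.ne' hsq.ne', Real.log_sqrt hn0.le]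
      ring
    rw [e1]
    have e2 : 1 / ((n : ℝ) * Real.sqrt n) * N - N / (n * Real.sqrt n) * -(3 / 2 * Real.log n) =
        (N / n) * ((1 + 3 / 2 * Real.log n) / Real.sqrt n) := by
      field_simp
      ring
    rw [e2]
    have e3 := mul_le_mul_of_nonneg_left hlim (show 0 ≤ N / n by positivity)
    linarith
  have h5 : (((Base n r).powerset.filter fun W =>
      (W.card : ℝ) ≤ N / (n * Real.sqrt n)).card : ℝ) ≤ (2 : ℝ) ^ (1 / 4 * (N / n)) := by
    rw [Real.rpow_def_of_pos (by norm_num)]
    exact h3.trans (Real.exp_le_exp.mpr h4)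
  have h6 : (A.card : ℝ) ≤ (2 : ℝ) ^ (1 / 4 * (N / n)) * (2 : ℝ) ^ (1 / 4 * (N / n)) := by
    have e : (A.card : ℝ) ≤ (((Base n r).powerset.filter fun W =>
      (W.card : ℝ) ≤ N / (n * Real.sqrt n)).card : ℝ) *
      (((stabs r (Base n r)).filter fun I => (I.card : ℝ) ≤ κ * (N / n)).card : ℝ) := by
      exact_mod_cast hcard
    exact e.trans (mul_le_mul h5 h1 (Nat.cast_nonneg _) (by positivity))
  have h7 := mats_lower (n := n) (r := r) (by omega) (by omega)
  refine le_trans ?_ h7
  calc (A.card : ℝ) * (2 : ℝ) ^ (1 / 2 * (N / n)) ≤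
      ((2 : ℝ) ^ (1 / 4 * (N / n)) * (2 : ℝ) ^ (1 / 4 * (N / n))) *
        (2 : ℝ) ^ (1 / 2 * (N / n)) := mul_le_mul_of_nonneg_right h6 (by positivity)
    _ = (2 : ℝ) ^ (N / n) := by
      rw [← Real.rpow_add (by norm_num), ← Real.rpow_add (by norm_num)]
      congr 1
      ring

end Pool.Agent.H8.VR
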