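import Pool.Agent.H8.VR.OneRaw
import Pool.Agent.H8.VM.A1_KW

/-! F1: members of the region with exactly one neighbour in `I`. -/

open scoped BigOperators
open Filter

namespace Pool.Agent.H8.VR

open Pool.Agent.H28.Johnson Pool.Agent.H28.KW Pool.Agent.H28.Windows Pool.Agent.H8.VM
open Pool.Agent.H13.VM (stabs mem_stabs)

/-- lower bound for the binomial coefficients -/
private lemma choose_ge_half {n r : ℕ} (hr : 2 ≤ r) (hrn : 2 * r ≤ n) :
    (n : ℝ) ^ 2 / 4 ≤ (n.choose r : ℝ) := by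
  have h1 : ∀ k, 2 ≤ k → 2 * k ≤ n → n.choose 2 ≤ n.choose k := by
    intro k hk
    induction k, hk using Nat.le_induction with
    | base => intro _; exact le_rfl
    | succ k hk ih =>
      intro h
      exact (ih (by omega)).trans (Nat.choose_le_succ_of_lt_half_left (by omega))
  have h2 := h1 r hr hrn
  have h3 : ((n.choose 2 : ℕ) : ℝ) = (n : ℝ) * (n - 1) / 2 := Nat.cast_choose_two ℝ n
  have h4 : ((n.choose 2 : ℕ) : ℝ) ≤ (n.choose r : ℝ) := by exact_mod_cast h2
  have h5 : (4 : ℝ) ≤ n := by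
    have : 4 ≤ n := by omega
    exact_mod_cast this
  rw [h3] at h4
  nlinarith

/-- lower bound for the binomial coefficients -/
lemma choose_ge_sq {n r : ℕ} (hr : 2 ≤ r) (hrn : r + 2 ≤ n) :
    (n : ℝ) ^ 2 / 4 ≤ (n.choose r : ℝ) := by
  rcases le_total (2 * r) n with h | h
  · exact choose_ge_half hr h
  · rw [← Nat.choose_symm (by omega : r ≤ n)]
    exact choose_ge_half (by omega) (by omega)

/-- F1 -/
theorem one_site : ∃ C : ℝ, 0 < C ∧ ∀ᶠ n : ℕ in atTop, ∀ r : ℕ, 49 * n ≤ 100 * r →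
    100 * r ≤ 51 * n → ∀ R ⊆ Base n r,
      ((∑ I ∈ stabs r R, (one r R I).card : ℕ) : ℝ) ≤
        C * ((n.choose r : ℝ) * Real.log n / n) * (stabs r R).card := by
  classical
  refine ⟨200, by norm_num, ?_⟩
  have hlog : Tendsto (fun n : ℕ => Real.log (n : ℝ)) atTop atTop :=
    Real.tendsto_log_atTop.comp tendsto_natCast_atTop_atTop
  filter_upwards [hlog.eventually_ge_atTop 1, eventually_ge_atTop 100] with n hL1 hn100 r h49 h51
    R hR
  set L := Real.log (n : ℝ) with hLdef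
  have hrn : r ≤ n := by omega
  have hn0 : (0 : ℝ) < n := by
    have : 0 < n := by omega
    exact_mod_cast this
  have hN4 := choose_ge_sq (n := n) (r := r) (by omega) (by omega)
  set N : ℝ := (n.choose r : ℝ) with hNdef
  have hN0 : 0 < N := lt_of_lt_of_le (by positivity) hN4
  have hL0 : 0 < L := by linarith
  have hn100' : (100 : ℝ) ≤ n := by exact_mod_cast hn100
  have h49' : 49 * (n : ℝ) ≤ 100 * r := by exact_mod_cast h49
  have h51' : 100 * (r : ℝ) ≤ 51 * n := by exact_mod_cast h51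
  have hr0 : (0 : ℝ) < r := by linarith
  set θ : ℕ := ⌈5 * N / n⌉₊ with hθdef
  have hθlow : 5 * N / n ≤ θ := Nat.le_ceil _
  have hθup : (θ : ℝ) ≤ 5 * N / n + 1 := (Nat.ceil_lt_add_one (by positivity)).le
  set β : ℝ := 1 * r * (n - r + 1) / ((1 + 1) * (n.choose r : ℝ)) with hβdef
  have hD : 49 / 100 * (n : ℝ) ≤ n - r + 1 := by linarith
  have hD0 : (0 : ℝ) < n - r + 1 := by linarith
  have hβ0 : 0 < β := by
    rw [hβdef]
    have : (0 : ℝ) < n.choose r := hN0
    positivity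
  have hβ1 : β ≤ 1 := by
    rw [hβdef, div_le_one (by have : (0 : ℝ) < n.choose r := hN0; positivity)]
    have h4 : (n : ℝ) ^ 2 / 4 ≤ (n.choose r : ℝ) := hN4
    have h5 : (r : ℝ) * (n - r + 1) ≤ n ^ 2 / 2 := by
      nlinarith [sq_nonneg ((n : ℝ) - 2 * r)]
    linarith
  set q : ℕ := ⌈L / β⌉₊ with hqdef
  have hqlow : L / β ≤ q := Nat.le_ceil _
  have hqup : (q : ℝ) ≤ L / β + 1 := (Nat.ceil_lt_add_one (by positivity)).le
  have hdeg : ∀ U ⊆ R, θ < U.card →
      ∃ v ∈ U, β * (U.card : ℝ) ≤ ((U.filter fun u => adj r v u).card : ℝ) := by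
    intro U hU hcard
    refine deg_large (by omega) hrn 1 one_pos U (hU.trans hR) ?_
    have h1 : (θ : ℝ) ≤ U.card := by exact_mod_cast hcard.le
    have h2 : 5 * N / n ≤ U.card := by linarith
    rw [div_le_iff₀ hn0] at h2
    have h4 : (U.card : ℝ) * (49 / 100 * n) ≤ U.card * (n - r + 1) :=
      mul_le_mul_of_nonneg_left hD (Nat.cast_nonneg _)
    nlinarith
  have hRc : (R.card : ℝ) ≤ N := by
    have : R.card ≤ (Base n r).card := Finset.card_le_card hR
    rw [card_Base] at this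
    rw [hNdef]
    exact_mod_cast this
  have hq : (1 - β) ^ q * (R.card : ℝ) ≤ θ := by
    have h1 : (1 - β) ^ q ≤ Real.exp (-L) := by
      have h2 : 1 - β ≤ Real.exp (-β) := Real.one_sub_le_exp_neg β
      calc (1 - β) ^ q ≤ (Real.exp (-β)) ^ q := pow_le_pow_left₀ (by linarith) h2 q
        _ = Real.exp (-(β * q)) := by
          rw [← Real.exp_nat_mul]
          congr 1
          ring
        _ ≤ Real.exp (-L) := by
          apply Real.exp_le_exp.mpr
          rw [div_le_iff₀ hβ0] at hqlow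
          linarith
    have h3 : Real.exp (-L) = 1 / n := by
      rw [Real.exp_neg, hLdef, Real.exp_log hn0, one_div]
    have h4 : (1 - β) ^ q * R.card ≤ 1 / n * N := by
      rw [← h3]
      exact mul_le_mul h1 hRc (Nat.cast_nonneg _) (Real.exp_pos _).le
    refine h4.trans (le_trans ?_ hθlow)
    rw [one_div_mul_eq_div]
    apply div_le_div_of_nonneg_right _ hn0.le
    linarith
  obtain ⟨F, U, hFU1, hFU2, hFU3⟩ := kw_run (adj r) (fun a => adj_irrefl a)
    (fun a b h => adj_symm h) R θ β hβ0 hβ1 hdeg q hq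
  have hraw := one_raw (n := n) (r := r) (θ := θ) (q := q) R hR F U
    (fun I hI => by
      rw [mem_stabs] at hI
      obtain ⟨h1, h2, -, h3⟩ := hFU1 I hI.1 hI.2
      exact ⟨h1, h2, h3⟩)
    (fun I hI z hz => by
      rw [mem_stabs] at hI
      rw [mem_addR] at hz
      exact hFU2 I hI.1 hI.2 z hz.1 hz.2.1 hz.2.2)
    (fun I hI u hu huF => by
      rw [mem_stabs] at hI
      exact hFU3 I hI.1 hI.2 u hu huF)
  set s : ℝ := ((stabs r R).card : ℝ) with hs
  set X : ℝ := ((∑ I ∈ stabs r R, (one r R I).card : ℕ) : ℝ) with hX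
  have hs0 : 0 ≤ s := Nat.cast_nonneg _
  have hraw' : (n : ℝ) * X ≤ n * (θ * s) + 8 * (n ^ 2 * (q * s)) + 2 * (N * s) := by
    rw [hX, hs, hNdef]
    exact_mod_cast hraw
  have hq2 : (q : ℝ) * n ^ 2 ≤ 9 * N * L + n ^ 2 := by
    have h1 : L / β * n ^ 2 ≤ 9 * N * L := by
      rw [div_mul_eq_mul_div, div_le_iff₀ hβ0]
      have h2 : (n : ℝ) ^ 2 ≤ 9 * N * β := by
        have h3 : 9 * N * β = 9 / 2 * (r * (n - r + 1)) := by
          rw [hβdef]
          have : (n.choose r : ℝ) ≠ 0 := hN0.ne'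
          field_simp
          ring
        rw [h3]
        have h4 : 49 / 100 * (n : ℝ) * (49 / 100 * n) ≤ r * (n - r + 1) :=
          mul_le_mul (by linarith) hD (by positivity) hr0.le
        nlinarith
      calc L * (n : ℝ) ^ 2 ≤ L * (9 * N * β) := mul_le_mul_of_nonneg_left h2 hL0.le
        _ = 9 * N * L * β := by ring
    have h5 : (q : ℝ) * n ^ 2 ≤ (L / β + 1) * n ^ 2 :=
      mul_le_mul_of_nonneg_right hqup (by positivity)
    linarith
  have hθ2 : (θ : ℝ) * n ≤ 5 * N + n := by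
    have := mul_le_mul_of_nonneg_right hθup hn0.le
    rw [add_mul, div_mul_cancel₀ _ hn0.ne'] at this
    linarith
  have h6 : (n : ℝ) * X ≤ 200 * (N * L) * s := by
    have e1 : (n : ℝ) * (θ * s) ≤ (5 * N + n) * s := by
      have := mul_le_mul_of_nonneg_right hθ2 hs0
      nlinarith
    have e2 : 8 * ((n : ℝ) ^ 2 * (q * s)) ≤ 8 * (9 * N * L + n ^ 2) * s := by
      have := mul_le_mul_of_nonneg_right hq2 hs0
      nlinarith
    have e3 : (n : ℝ) ≤ N := by nlinarith
    have e4 : N ≤ N * L := by nlinarith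
    have e5 : (n : ℝ) ^ 2 ≤ 4 * (N * L) := by nlinarith
    have e6 : (5 * N + n) + 8 * (9 * N * L + n ^ 2) + 2 * N ≤ 200 * (N * L) := by linarith
    have e7 := mul_le_mul_of_nonneg_right e6 hs0
    nlinarith
  have h7 : 200 * (N * L / n) * s = 200 * (N * L) * s / n := by ring
  rw [h7, le_div_iff₀ hn0]
  linarith

end Pool.Agent.H8.VR
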