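import Pool.Agent.H8.VR.Cost
import Pool.Agent.H8.VR.OneSite

/-! F2: expensive sites are rare. -/

open scoped BigOperators
open Filter

namespace Pool.Agent.H8.VR

open Pool.Agent.H28.Johnson Pool.Agent.H28.KW Pool.Agent.H28.Windows Pool.Agent.H8.VM
open Pool.Agent.H13.VM (stabs mem_stabs)

open Classical in
/-- F2 -/
theorem cost_bound : ∃ C : ℝ, 0 < C ∧ ∀ᶠ n : ℕ in atTop, ∀ r : ℕ, 49 * n ≤ 100 * r →
    100 * r ≤ 51 * n → ∀ R ⊆ Base n r,
      ((∑ I ∈ stabs r R, ((Base n r).filter fun S =>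
        2 ^ (4 * n / 5) < LamR r R I S).card : ℕ) : ℝ) ≤
        C * ((n.choose r : ℝ) * Real.log n / n) * (stabs r R).card := by
  obtain ⟨C, hC, hev⟩ := one_site
  have hlog : Tendsto (fun n : ℕ => Real.log (n : ℝ)) atTop atTop :=
    Real.tendsto_log_atTop.comp tendsto_natCast_atTop_atTop
  refine ⟨20 * (C + 2), by positivity, ?_⟩
  filter_upwards [hev, hlog.eventually_ge_atTop 1, eventually_ge_atTop 200] with n hn hL1 hn200
    r h49 h51 R hR
  have h1 := hn r h49 h51 R hR
  set L := Real.log (n : ℝ) with hLdef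
  have hn0 : (0 : ℝ) < n := by
    have : 0 < n := by omega
    exact_mod_cast this
  set N : ℝ := (n.choose r : ℝ) with hNdef
  have hN0 : 0 ≤ N := Nat.cast_nonneg _
  set s : ℝ := ((stabs r R).card : ℝ) with hs
  have hs0 : 0 ≤ s := Nat.cast_nonneg _
  set t : ℕ := n / 4 with ht
  have hmono : ∑ I ∈ stabs r R, ((Base n r).filter fun S =>
      2 ^ (4 * n / 5) < LamR r R I S).card ≤
      ∑ I ∈ stabs r R, ((Base n r).filter fun S => 2 ^ (r + t) < LamR r R I S).card := by
    refine Finset.sum_le_sum fun I _ => Finset.card_le_card ?_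
    intro S hS
    rw [Finset.mem_filter] at hS ⊢
    refine ⟨hS.1, lt_of_le_of_lt ?_ hS.2⟩
    exact Nat.pow_le_pow_right (by norm_num) (by omega)
  have hcount := (Nat.mul_le_mul_left t hmono).trans (cost_countR (t := t) hR)
  have hRc : R.card ≤ n.choose r := by
    rw [← card_Base n r]
    exact Finset.card_le_card hR
  have hsum : ∑ I ∈ stabs r R, ∑ S ∈ Base n r, (psiset r I S ∩ R).card ≤
      n * (∑ I ∈ stabs r R, (one r R I).card) + 2 * ((stabs r R).card * n.choose r) := by
    calc ∑ I ∈ stabs r R, ∑ S ∈ Base n r, (psiset r I S ∩ R).card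
        ≤ ∑ I ∈ stabs r R, (n * (one r R I).card + 2 * n.choose r) := by
          refine Finset.sum_le_sum fun I hI => ?_
          exact (psi_sumR hR hI).trans (Nat.add_le_add_left (Nat.mul_le_mul_left _ hRc) _)
      _ = n * (∑ I ∈ stabs r R, (one r R I).card) + 2 * ((stabs r R).card * n.choose r) := by
          rw [Finset.sum_add_distrib, ← Finset.mul_sum, Finset.sum_const, smul_eq_mul]
          ring
  set X : ℝ := ((∑ I ∈ stabs r R, ((Base n r).filter fun S =>
        2 ^ (4 * n / 5) < LamR r R I S).card : ℕ) : ℝ) with hX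
  set Y : ℝ := ((∑ I ∈ stabs r R, (one r R I).card : ℕ) : ℝ) with hY
  have hX0 : 0 ≤ X := Nat.cast_nonneg _
  have h2 : (t : ℝ) * X ≤ 4 * (n * Y + 2 * (s * N)) := by
    rw [hX, hY, hs, hNdef]
    exact_mod_cast hcount.trans (Nat.mul_le_mul_left 4 hsum)
  have ht2 : (n : ℝ) / 5 ≤ t := by
    have : n ≤ 5 * t := by omega
    have h3 : (n : ℝ) ≤ 5 * t := by exact_mod_cast this
    linarith
  have h3 : (n : ℝ) * Y ≤ C * (N * L) * s := by
    have := mul_le_mul_of_nonneg_left h1 hn0.le
    refine this.trans (le_of_eq ?_)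
    field_simp
  have h4 : (n : ℝ) / 5 * X ≤ 4 * (C * (N * L) * s + 2 * (s * N)) := by
    have := mul_le_mul_of_nonneg_right ht2 hX0
    linarith
  have h5 : s * N ≤ (N * L) * s := by
    have : N ≤ N * L := by nlinarith
    nlinarith
  have h6 : X * n ≤ 20 * (C + 2) * (N * L) * s := by nlinarith
  have h7 : 20 * (C + 2) * (N * L / n) * s = 20 * (C + 2) * (N * L) * s / n := by ring
  rw [h7, le_div_iff₀ hn0]
  exact h6

end Pool.Agent.H8.VR
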