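import Pool.Agent.H8.VM.Defs
import Pool.Agent.H13.VM.Defs

/-! # Part F of `h13_vamos_paper.md`: stable subsets of a region `R` of the Johnson graph

`R` is an arbitrary family of `r`-sets, `stabs r R` the family of its stable subsets (see
`Pool.Agent.H13.VM.Defs`). `one r R I` = members of `R` with exactly one neighbour in `I`;
`LamR r R I S` = number of ways to fill the neighbourhood of `S` inside `R`, keeping `I` outside
`N[S]`. Main results: `one_site` (file `OneSite`), `cost_bound` (file `CostFinal`), `few_small_two`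
(file `Small`). -/

open scoped BigOperators

namespace Pool.Agent.H8.VR

open Pool.Agent.H28.Johnson Pool.Agent.H28.KW Pool.Agent.H28.Windows Pool.Agent.H8.VM
open Pool.Agent.H13.VM (stabs mem_stabs)

variable {n : ℕ}

open Classical in
/-- the members of `R` with exactly one neighbour in `I` -/
noncomputable def one (r : ℕ) (R I : Finset (Finset (Fin n))) : Finset (Finset (Fin n)) :=
  R.filter fun v => (nbr r I v).card = 1

open Classical in
/-- the members of `R` which can be added to `I` -/
noncomputable def addR (r : ℕ) (R I : Finset (Finset (Fin n))) : Finset (Finset (Fin n)) :=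
  R.filter fun v => v ∉ I ∧ ∀ u ∈ I, ¬ adj r v u

open Classical in
/-- the fillings of the neighbourhood of `S` inside `R` compatible with `w` -/
noncomputable def fillR (r : ℕ) (R w : Finset (Finset (Fin n))) (S : Finset (Fin n)) :
    Finset (Finset (Finset (Fin n))) :=
  (nbh r S ∩ R).powerset.filter fun J => w ∪ J ∈ stabs r R

/-- number of fillings of the neighbourhood of `S` inside `R`, compatible with `I` outside
`N[S]` -/
noncomputable def LamR (r : ℕ) (R I : Finset (Finset (Fin n))) (S : Finset (Fin n)) : ℕ :=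
  (fillR r R (outside r I S) S).card

lemma mem_one {r : ℕ} {R I : Finset (Finset (Fin n))} {v : Finset (Fin n)} :
    v ∈ one r R I ↔ v ∈ R ∧ (nbr r I v).card = 1 := by
  classical
  rw [one, Finset.mem_filter]

lemma mem_addR {r : ℕ} {R I : Finset (Finset (Fin n))} {v : Finset (Fin n)} :
    v ∈ addR r R I ↔ v ∈ R ∧ v ∉ I ∧ ∀ u ∈ I, ¬ adj r v u := by
  classical
  rw [addR, Finset.mem_filter]

lemma mem_fillR {r : ℕ} {R w J : Finset (Finset (Fin n))} {S : Finset (Fin n)} :
    J ∈ fillR r R w S ↔ J ⊆ nbh r S ∩ R ∧ w ∪ J ∈ stabs r R := by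
  classical
  rw [fillR, Finset.mem_filter, Finset.mem_powerset]

lemma stabs_subset {r : ℕ} {R I J : Finset (Finset (Fin n))} (hI : I ∈ stabs r R)
    (hJ : J ⊆ I) : J ∈ stabs r R := by
  rw [mem_stabs] at hI ⊢
  exact ⟨hJ.trans hI.1, fun a ha b hb => hI.2 a (hJ ha) b (hJ hb)⟩

lemma stabs_erase {r : ℕ} {R I : Finset (Finset (Fin n))} (hI : I ∈ stabs r R)
    (u : Finset (Fin n)) : I.erase u ∈ stabs r R := stabs_subset hI (Finset.erase_subset _ _)

lemma stabs_insert {r : ℕ} {R I : Finset (Finset (Fin n))} (hI : I ∈ stabs r R)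
    {z : Finset (Fin n)} (hz : z ∈ addR r R I) : insert z I ∈ stabs r R := by
  rw [mem_stabs] at hI ⊢
  rw [mem_addR] at hz
  refine ⟨Finset.insert_subset hz.1 hI.1, ?_⟩
  intro a ha b hb
  rw [Finset.mem_insert] at ha hb
  rcases ha with rfl | ha <;> rcases hb with rfl | hb
  · exact adj_irrefl _
  · exact hz.2.2 b hb
  · exact fun h => hz.2.2 a ha (adj_symm h)
  · exact hI.2 a ha b hb

lemma mem_addR_erase {r : ℕ} {R I : Finset (Finset (Fin n))} (hI : I ∈ stabs r R)
    {u : Finset (Fin n)} (hu : u ∈ I) : u ∈ addR r R (I.erase u) := by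
  rw [mem_stabs] at hI
  rw [mem_addR]
  refine ⟨hI.1 hu, Finset.notMem_erase _ _, ?_⟩
  intro w hw
  exact hI.2 u hu w (Finset.mem_of_mem_erase hw)

lemma stabs_le {r : ℕ} {R : Finset (Finset (Fin n))} (hR : R ⊆ Base n r) :
    stabs r R ⊆ stables n r := by
  intro I hI
  rw [mem_stabs] at hI
  rw [mem_stables]
  exact ⟨hI.1.trans hR, hI.2⟩

end Pool.Agent.H8.VR
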