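import Pool.Agent.H8.VM.D2_Paths
import Pool.Agent.H8.VM.D4a_Bc

/-! H5, first half: without 4-cycles a site is reached by few paths. -/

open scoped BigOperators

namespace Pool.Agent.H8.VR

open Pool.Agent.H28.Johnson Pool.Agent.H28.KW Pool.Agent.H28.Windows Pool.Agent.H8.VM

variable {n : ℕ}

/-- exchange of a pair inside a cell -/
lemma swp_gen {r : ℕ} {c : Cell n} (hc : c ∈ cells n r) {i j k l : Fin 8}
    {Q Q' : Finset (Fin 8)} (h : Q' = (Q \ {i, j}) ∪ {k, l}) :
    swp (c.at Q) (c.2 i, c.2 j) (c.2 k, c.2 l) = c.at Q' := by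
  have hY := (mem_cells.mp hc).2
  subst h
  ext x
  rw [D2.mem_swp, D4a_mem, D4a_mem]
  simp only [Finset.mem_union, Finset.mem_sdiff, Finset.mem_insert, Finset.mem_singleton]
  constructor
  · rintro (⟨h1 | ⟨m, hm, rfl⟩, h2, h3⟩ | h | h)
    · exact Or.inl h1
    · refine Or.inr ⟨m, Or.inl ⟨hm, ?_⟩, rfl⟩
      rintro (h | h)
      · exact h2 (by rw [h])
      · exact h3 (by rw [h])
    · exact Or.inr ⟨k, Or.inr (Or.inl rfl), h.symm⟩
    · exact Or.inr ⟨l, Or.inr (Or.inr rfl), h.symm⟩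
  · rintro (h | ⟨m, h1 | h1, rfl⟩)
    · exact Or.inl ⟨Or.inl h, fun h2 => hY i (h2 ▸ h), fun h2 => hY j (h2 ▸ h)⟩
    · refine Or.inl ⟨Or.inr ⟨m, h1.1, rfl⟩, ?_, ?_⟩
      · intro h2
        exact h1.2 (Or.inl (c.2.injective h2))
      · intro h2
        exact h1.2 (Or.inr (c.2.injective h2))
    · rcases h1 with rfl | rfl
      · exact Or.inr (Or.inl rfl)
      · exact Or.inr (Or.inr rfl)

/-- a cell is determined by one of its sets and the eight elements -/
lemma cell_ext {r : ℕ} {c c' : Cell n} (hc : c ∈ cells n r) (hc' : c' ∈ cells n r)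
    {Q : Finset (Fin 8)} (hS : c.at Q = c'.at Q) (h : ∀ i, c.2 i = c'.2 i) : c = c' := by
  have hφ : c.2 = c'.2 := DFunLike.ext _ _ h
  have hY := (mem_cells.mp hc).2
  have hY' := (mem_cells.mp hc').2
  have key : ∀ (d d' : Cell n), (∀ i, d.2 i ∉ d.1) → d.at Q = d'.at Q → d.2 = d'.2 →
      d.1 ⊆ d'.1 := by
    intro d d' hd hS hφ x hx
    have h1 : x ∈ d'.at Q := by
      rw [← hS, D4a_mem]
      exact Or.inl hx
    rw [D4a_mem] at h1
    rcases h1 with h1 | ⟨i, _, h1⟩
    · exact h1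
    · exfalso
      rw [← hφ] at h1
      exact hd i (h1 ▸ hx)
  exact Prod.ext (Finset.Subset.antisymm (key c c' hY hS hφ) (key c' c hY' hS.symm hφ.symm)) hφ

/-- `U` is the middle of a path cell which closes to a 4-cycle -/
def Bad4 (r : ℕ) (I : Finset (Finset (Fin n))) (U : Finset (Fin n)) : Prop :=
  ∃ e ∈ pth r I, e.at Qbc = U ∧ e.at Qcd ∈ I

/-- without 4-cycle the last pair is determined up to order -/
private lemma last_pair {r : ℕ} {I : Finset (Finset (Fin n))} (hI : I ∈ stables n r)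
    {U : Finset (Fin n)} (hU : U ∈ Base n r) (hbad : ¬ Bad4 r I U)
    {pa pc pc' pd : Fin n × Fin n} (h1 : (pc, pa) ∈ edges2 I U) (h2 : (pc', pa) ∈ edges2 I U)
    (h3 : (pc, pd) ∈ edges2 I U) (h4 : (pc', pd) ∈ edges2 I U) (hda : D2.Dj pd pa) :
    pc' = pc ∨ pc' = pc.swap := by
  by_cases hm : pc'.1 = pc.1 ∨ pc'.1 = pc.2 ∨ pc'.2 = pc.1 ∨ pc'.2 = pc.2
  · exact D2.left_eq hI hU h2 h1 hm
  · exfalso
    push Not at hm
    obtain ⟨e, he, heU, e1, e2, e3, e4⟩ := D2.exists_cell hU h1 h2 h3 hm hda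
    refine hbad ⟨e, he, heU, ?_⟩
    have h5 : swp (e.at Qbc) (e.2 2, e.2 3) (e.2 6, e.2 7) = e.at Qcd :=
      swp_gen (mem_pth.mp he).1 (by decide)
    rw [← h5, heU, e2, e4]
    exact (mem_edges2.mp h4).2

open Classical in
theorem site_fiber {r : ℕ} {I : Finset (Finset (Fin n))} (hI : I ∈ stables n r)
    {S : Finset (Fin n)} (hS : S ∈ Base n r) :
    ((pth r I).filter fun c => c.at Qcd = S ∧ c.at Qbc ∈ I ∧ ¬ Bad4 r I (c.at Qbc)).card ≤
      2 * n ^ 4 := by
  have hIB := (mem_stables.mp hI).1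
  set F := (pth r I).filter fun c => c.at Qcd = S ∧ c.at Qbc ∈ I ∧ ¬ Bad4 r I (c.at Qbc) with hF
  have hed : ∀ c ∈ F, c ∈ cells n r ∧ c.at Qcd = S ∧
      c.at Qbc = swp S (c.2 6, c.2 7) (c.2 2, c.2 3) ∧ c.at Qbc ∈ I ∧ ¬ Bad4 r I (c.at Qbc) ∧
      (((c.2 6, c.2 7), (c.2 2, c.2 3)) : (Fin n × Fin n) × (Fin n × Fin n)) ∈ edges2 I S ∧
      (((c.2 2, c.2 3), (c.2 0, c.2 1)) : (Fin n × Fin n) × (Fin n × Fin n)) ∈
        edges2 I (c.at Qbc) ∧
      (((c.2 4, c.2 5), (c.2 0, c.2 1)) : (Fin n × Fin n) × (Fin n × Fin n)) ∈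
        edges2 I (c.at Qbc) ∧
      (((c.2 4, c.2 5), (c.2 6, c.2 7)) : (Fin n × Fin n) × (Fin n × Fin n)) ∈
        edges2 I (c.at Qbc) := by
    intro c hc
    rw [hF, Finset.mem_filter] at hc
    obtain ⟨h1, h2, h3, h4⟩ := hc
    have h0 := (mem_pth.mp h1).1
    have h5 := D4a_edges h1
    have h6 : swp (c.at Qcd) (c.2 6, c.2 7) (c.2 2, c.2 3) = c.at Qbc :=
      swp_gen h0 (by decide)
    rw [h2] at h6
    refine ⟨h0, h2, h6.symm, h3, h4, ?_, h5.2.1, h5.1, h5.2.2⟩
    rw [mem_edges2]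
    refine ⟨⟨?_, ?_⟩, ?_⟩
    · rw [← h2, Finset.mem_offDiag]
      exact ⟨(D4a_mem c Qcd _).mpr (Or.inr ⟨6, by decide, rfl⟩),
        (D4a_mem c Qcd _).mpr (Or.inr ⟨7, by decide, rfl⟩), D4a_ne c (by decide)⟩
    · have key : ∀ k : Fin 8, k ∉ Qcd → c.2 k ∉ c.at Qcd := by
        intro k hk h
        rw [D4a_mem] at h
        rcases h with h | ⟨l, hl, h⟩
        · exact (mem_cells.mp h0).2 k h
        · exact hk (c.2.injective h ▸ hl)
      rw [← h2, Finset.mem_offDiag, Finset.mem_compl, Finset.mem_compl]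
      exact ⟨key 2 (by decide), key 3 (by decide), D4a_ne c (by decide)⟩
    · rw [h6]
      exact h3
  -- last step
  have s4 : ∀ pd pb pa : Fin n × Fin n,
      (F.filter fun c => (c.2 6, c.2 7) = pd ∧ (c.2 2, c.2 3) = pb ∧
        (c.2 0, c.2 1) = pa).card ≤ 2 := by
    intro pd pb pa
    by_cases hne : (F.filter fun c => (c.2 6, c.2 7) = pd ∧ (c.2 2, c.2 3) = pb ∧
        (c.2 0, c.2 1) = pa).Nonempty
    · obtain ⟨c0, hc0⟩ := hne
      rw [Finset.mem_filter] at hc0
      obtain ⟨hc0F, k1, k2, k3⟩ := hc0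
      obtain ⟨a1, a2, a3, a4, a5, a6, a7, a8, a9⟩ := hed c0 hc0F
      have hsub : (F.filter fun c => (c.2 6, c.2 7) = pd ∧ (c.2 2, c.2 3) = pb ∧
          (c.2 0, c.2 1) = pa).card ≤
          ({(c0.2 4, c0.2 5), (c0.2 4, c0.2 5).swap} : Finset (Fin n × Fin n)).card := by
        refine Finset.card_le_card_of_injOn (fun c => (c.2 4, c.2 5)) ?_ ?_
        · intro c hc
          rw [Finset.mem_coe, Finset.mem_filter] at hc
          obtain ⟨hcF, l1, l2, l3⟩ := hc
          obtain ⟨b1, b2, b3, b4, b5, b6, b7, b8, b9⟩ := hed c hcF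
          have hUU : c.at Qbc = c0.at Qbc := by rw [b3, a3, l1, l2, k1, k2]
          rw [hUU] at b8 b9
          rw [l3] at b8
          rw [l1] at b9
          rw [k3] at a8
          rw [k1] at a9
          have hda : D2.Dj pd pa := by
            rw [← k1, ← k3]
            exact ⟨D4a_ne c0 (by decide), D4a_ne c0 (by decide), D4a_ne c0 (by decide),
              D4a_ne c0 (by decide)⟩
          have := last_pair hI (hIB a4) a5 a8 b8 a9 b9 hda
          rw [Finset.mem_coe, Finset.mem_insert, Finset.mem_singleton]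
          exact this
        · intro c hc c' hc' h
          rw [Finset.mem_coe, Finset.mem_filter] at hc hc'
          obtain ⟨hcF, l1, l2, l3⟩ := hc
          obtain ⟨hcF', l1', l2', l3'⟩ := hc'
          have e1 := Prod.ext_iff.mp (l1.trans l1'.symm)
          have e2 := Prod.ext_iff.mp (l2.trans l2'.symm)
          have e3 := Prod.ext_iff.mp (l3.trans l3'.symm)
          have e4 := Prod.ext_iff.mp h
          refine cell_ext (hed c hcF).1 (hed c' hcF').1
            ((hed c hcF).2.1.trans (hed c' hcF').2.1.symm) ?_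
          intro i
          fin_cases i
          · exact e3.1
          · exact e3.2
          · exact e2.1
          · exact e2.2
          · exact e4.1
          · exact e4.2
          · exact e1.1
          · exact e1.2
      exact hsub.trans Finset.card_le_two
    · rw [Finset.not_nonempty_iff_eq_empty.mp hne, Finset.card_empty]
      exact Nat.zero_le _
  have s3 : ∀ pd pb : Fin n × Fin n,
      (F.filter fun c => (c.2 6, c.2 7) = pd ∧ (c.2 2, c.2 3) = pb).card ≤ 2 * n := by
    intro pd pb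
    by_cases hne : (F.filter fun c => (c.2 6, c.2 7) = pd ∧ (c.2 2, c.2 3) = pb).Nonempty
    · obtain ⟨c0, hc0⟩ := hne
      rw [Finset.mem_filter] at hc0
      obtain ⟨hc0F, k1, k2⟩ := hc0
      obtain ⟨a1, a2, a3, a4, a5, a6, a7, a8, a9⟩ := hed c0 hc0F
      have h := Finset.card_le_mul_card_image_of_maps_to
        (s := F.filter fun c => (c.2 6, c.2 7) = pd ∧ (c.2 2, c.2 3) = pb)
        (t := (Finset.univ : Finset (Fin n × Fin n)).filter fun y =>
          (pb, y) ∈ edges2 I (c0.at Qbc))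
        (f := fun c => (c.2 0, c.2 1)) (by
          intro c hc
          rw [Finset.mem_filter] at hc
          obtain ⟨hcF, l1, l2⟩ := hc
          obtain ⟨b1, b2, b3, b4, b5, b6, b7, b8, b9⟩ := hed c hcF
          have hUU : c.at Qbc = c0.at Qbc := by rw [b3, a3, l1, l2, k1, k2]
          rw [Finset.mem_filter]
          refine ⟨Finset.mem_univ _, ?_⟩
          rw [hUU, l2] at b7
          exact b7) 2 (by
          intro pa _
          refine le_trans (Finset.card_le_card ?_) (s4 pd pb pa)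
          intro c hc
          rw [Finset.mem_filter, Finset.mem_filter] at hc
          rw [Finset.mem_filter]
          exact ⟨hc.1.1, hc.1.2.1, hc.1.2.2, hc.2⟩)
      exact h.trans (Nat.mul_le_mul_left _ (D4a_row hI (hIB a4) pb))
    · rw [Finset.not_nonempty_iff_eq_empty.mp hne, Finset.card_empty]
      exact Nat.zero_le _
  have s2 : ∀ pd : Fin n × Fin n, (F.filter fun c => (c.2 6, c.2 7) = pd).card ≤ 2 * n * n := by
    intro pd
    have h := Finset.card_le_mul_card_image_of_maps_to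
      (s := F.filter fun c => (c.2 6, c.2 7) = pd)
      (t := (Finset.univ : Finset (Fin n × Fin n)).filter fun y => (pd, y) ∈ edges2 I S)
      (f := fun c => (c.2 2, c.2 3)) (by
        intro c hc
        rw [Finset.mem_filter] at hc
        rw [Finset.mem_filter]
        refine ⟨Finset.mem_univ _, ?_⟩
        rw [← hc.2]
        exact (hed c hc.1).2.2.2.2.2.1) (2 * n) (by
        intro pb _
        refine le_trans (Finset.card_le_card ?_) (s3 pd pb)
        intro c hc
        rw [Finset.mem_filter, Finset.mem_filter] at hc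
        rw [Finset.mem_filter]
        exact ⟨hc.1.1, hc.1.2, hc.2⟩)
    exact h.trans (Nat.mul_le_mul_left _ (D4a_row hI hS pd))
  have h := Finset.card_le_mul_card_image_of_maps_to
    (s := F) (t := (Finset.univ : Finset (Fin n × Fin n)))
    (f := fun c => (c.2 6, c.2 7)) (fun _ _ => Finset.mem_univ _) (2 * n * n) (fun pd _ => s2 pd)
  refine h.trans ?_
  rw [Finset.card_univ, Fintype.card_prod, Fintype.card_fin]
  exact le_of_eq (by ring)

end Pool.Agent.H8.VR
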