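import Pool.Agent.H8.VR.Defs
import Pool.Agent.H8.VM.C1_Occ
import Pool.Agent.H8.VM.C3_Psi

/-! Fillings with prescribed occupied rows, inside a region; double counting of `psiset`. -/

open scoped BigOperators

namespace Pool.Agent.H8.VR

open Pool.Agent.H28.Johnson Pool.Agent.H28.KW Pool.Agent.H28.Windows Pool.Agent.H8.VM
open Pool.Agent.H13.VM (stabs mem_stabs)

open Classical in
theorem occ {n r : ℕ} {R : Finset (Finset (Fin n))} (hR : R ⊆ Base n r) {S : Finset (Fin n)}
    (hS : S ∈ Base n r) {w : Finset (Finset (Fin n))} {J : Finset (Finset (Fin n))}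
    (hJ : J ∈ fillR r R w S) :
    ((fillR r R w S).filter fun J' => rows S J' = rows S J).card ≤
      2 ^ (psiset r (w ∪ J) S ∩ R).card := by
  rw [mem_fillR] at hJ
  have hJn : J ⊆ nbh r S := hJ.1.trans Finset.inter_subset_left
  set P := psiset r (w ∪ J) S ∩ R with hP
  let A : Fin n → Finset (Finset (Fin n)) := fun x =>
    (nbh r S ∩ R).filter fun v => x ∉ v ∧ ∀ z ∈ w, ¬ adj r v z
  let B : Fin n → Finset (Finset (Finset (Fin n))) := fun x =>
    if x ∈ rows S J then (A x).image (fun v => {v}) else {∅}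
  let p : Fin n → ℕ := fun x => (P.filter fun v => x ∉ v).card
  -- the injection
  have hinj : ((fillR r R w S).filter fun J' => rows S J' = rows S J).card ≤
      (Fintype.piFinset B).card := by
    refine Finset.card_le_card_of_injOn
      (fun J' x => J'.filter fun u => x ∈ S ∧ x ∉ u) ?_ ?_
    · intro J' hJ'
      rw [Finset.mem_coe, Finset.mem_filter, mem_fillR] at hJ'
      obtain ⟨⟨hJ'0, hJ'2⟩, hrows⟩ := hJ'
      have hJ'1 : J' ⊆ nbh r S := hJ'0.trans Finset.inter_subset_left
      have hst := (mem_stabs.mp hJ'2).2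
      rw [Finset.mem_coe, Fintype.mem_piFinset]
      intro x
      change (J'.filter fun u => x ∈ S ∧ x ∉ u) ∈
        (if x ∈ rows S J then (A x).image (fun v => {v}) else {∅})
      by_cases hx : x ∈ rows S J
      · rw [if_pos hx]
        rw [← hrows, mem_rows] at hx
        obtain ⟨hxS, u, hu, hxu⟩ := hx
        rw [Finset.mem_image]
        refine ⟨u, ?_, ?_⟩
        · change u ∈ (nbh r S ∩ R).filter fun v => x ∉ v ∧ ∀ z ∈ w, ¬ adj r v z
          rw [Finset.mem_filter]
          exact ⟨hJ'0 hu, hxu, fun z hz => hst u (Finset.mem_union_right _ hu) z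
            (Finset.mem_union_left _ hz)⟩
        · ext z
          rw [Finset.mem_singleton, Finset.mem_filter]
          constructor
          · rintro rfl
            exact ⟨hu, hxS, hxu⟩
          · rintro ⟨hz, _, hxz⟩
            obtain ⟨y1, hy1, h1⟩ := row_form hS (hJ'1 hu) hxS hxu
            obtain ⟨y2, hy2, h2⟩ := row_form hS (hJ'1 hz) hxS hxz
            by_contra hne
            refine hst z (Finset.mem_union_right _ hz) u (Finset.mem_union_right _ hu) ?_
            rw [h1, h2]
            refine adj_row hS hxS hy2 hy1 ?_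
            rintro rfl
            exact hne (h2.trans h1.symm)
      · rw [if_neg hx, Finset.mem_singleton, Finset.filter_eq_empty_iff]
        rintro u hu ⟨hxS, hxu⟩
        rw [← hrows, mem_rows] at hx
        exact hx ⟨hxS, u, hu, hxu⟩
    · intro J1 h1 J2 h2 heq
      rw [Finset.mem_coe, Finset.mem_filter, mem_fillR] at h1 h2
      have key : ∀ J1 J2 : Finset (Finset (Fin n)), J1 ⊆ nbh r S →
          (∀ x, (J1.filter fun u => x ∈ S ∧ x ∉ u) = (J2.filter fun u => x ∈ S ∧ x ∉ u)) →
          J1 ⊆ J2 := by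
        intro J1 J2 h1 heq u hu
        obtain ⟨x, hx, y, hy, hu1⟩ := nbh_form hS (h1 hu)
        have h3 : u ∈ J1.filter fun u => x ∈ S ∧ x ∉ u := by
          rw [Finset.mem_filter]
          refine ⟨hu, hx, ?_⟩
          rw [hu1, Finset.mem_insert, Finset.mem_erase]
          rintro (h | h)
          · exact hy (h ▸ hx)
          · exact h.1 rfl
        rw [heq x, Finset.mem_filter] at h3
        exact h3.1
      have heq' : ∀ x, (J1.filter fun u => x ∈ S ∧ x ∉ u) =
          (J2.filter fun u => x ∈ S ∧ x ∉ u) := fun x => congrFun heq x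
      exact Finset.Subset.antisymm (key J1 J2 (h1.1.1.trans Finset.inter_subset_left) heq')
        (key J2 J1 (h2.1.1.trans Finset.inter_subset_left) fun x => (heq' x).symm)
  refine hinj.trans ?_
  rw [Fintype.card_piFinset]
  have hB : ∀ x, (B x).card ≤ 2 ^ (if x ∈ S then p x else 0) := by
    intro x
    change (if x ∈ rows S J then (A x).image (fun v => ({v} : Finset (Finset (Fin n))))
      else {∅}).card ≤ _
    by_cases hx : x ∈ rows S J
    · rw [if_pos hx]
      rw [mem_rows] at hx
      obtain ⟨hxS, u, hu, hxu⟩ := hx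
      rw [if_pos hxS]
      have h1 : A x ⊆ insert u (P.filter fun v => x ∉ v) := by
        intro v hv
        change v ∈ (nbh r S ∩ R).filter fun v => x ∉ v ∧ ∀ z ∈ w, ¬ adj r v z at hv
        rw [Finset.mem_filter, Finset.mem_inter] at hv
        rw [Finset.mem_insert]
        by_cases hvu : v = u
        · exact Or.inl hvu
        · right
          rw [Finset.mem_filter, hP, Finset.mem_inter]
          exact ⟨⟨psi_of_row hS (stabs_le hR hJ.2) hJn hu hv.1.1 hv.2.2 hxS hxu hv.2.1 hvu,
            hv.1.2⟩, hv.2.1⟩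
      calc ((A x).image fun v => ({v} : Finset (Finset (Fin n)))).card ≤ (A x).card :=
            Finset.card_image_le
        _ ≤ (insert u (P.filter fun v => x ∉ v)).card := Finset.card_le_card h1
        _ ≤ p x + 1 := Finset.card_insert_le _ _
        _ ≤ 2 ^ p x := Nat.lt_two_pow_self
    · rw [if_neg hx, Finset.card_singleton]
      exact Nat.one_le_two_pow
  refine (Finset.prod_le_prod' fun x _ => hB x).trans ?_
  rw [Finset.prod_pow_eq_pow_sum]
  refine Nat.pow_le_pow_right (by norm_num) ?_
  rw [Finset.sum_ite_mem, Finset.univ_inter]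
  change ∑ x ∈ S, (P.filter fun v => x ∉ v).card ≤ P.card
  simp_rw [Finset.card_filter]
  rw [Finset.sum_comm]
  refine (Finset.sum_le_sum (g := fun _ => 1) fun v hv => ?_).trans (by simp)
  rw [hP, Finset.mem_inter, mem_psiset] at hv
  obtain ⟨x, hx, y, hy, hv1⟩ := nbh_form hS hv.1.1
  rw [← Finset.card_filter, Finset.card_le_one]
  intro a ha b hb
  rw [Finset.mem_filter] at ha hb
  rw [hv1] at ha hb
  rw [notMem_form hy ha.1 ha.2, notMem_form hy hb.1 hb.2]

open Classical in
theorem psi_sumR {n r : ℕ} {R : Finset (Finset (Fin n))} (hR : R ⊆ Base n r)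
    {I : Finset (Finset (Fin n))} (hI : I ∈ stabs r R) :
    ∑ S ∈ Base n r, (psiset r I S ∩ R).card ≤ n * (one r R I).card + 2 * R.card := by
  have h1 : ∑ S ∈ Base n r, (psiset r I S ∩ R).card =
      ∑ v ∈ R, ((Base n r).filter fun S => v ∈ psiset r I S).card := by
    have h : ∀ S ∈ Base n r, (psiset r I S ∩ R).card =
        ∑ v ∈ R, if v ∈ psiset r I S then 1 else 0 := by
      intro S _
      rw [Finset.sum_ite_mem, Finset.sum_const, smul_eq_mul, mul_one, Finset.inter_comm]
    rw [Finset.sum_congr rfl h, Finset.sum_comm]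
    refine Finset.sum_congr rfl fun v _ => ?_
    rw [Finset.card_filter]
  rw [h1]
  refine (Finset.sum_le_sum fun v hv => psi_fiber (stabs_le hR hI) (hR hv)).trans ?_
  rw [Finset.sum_add_distrib, ← Finset.mul_sum, ← Finset.mul_sum]
  have h2 : ∑ v ∈ R, (if v ∈ lev r 1 I then 1 else 0) = (one r R I).card := by
    rw [one, Finset.card_filter]
    refine Finset.sum_congr rfl fun v hv => ?_
    have : v ∈ lev r 1 I ↔ (nbr r I v).card = 1 := by
      rw [mem_lev]
      exact ⟨fun h => h.2, fun h => ⟨hR hv, h⟩⟩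
    by_cases h : (nbr r I v).card = 1
    · rw [if_pos h, if_pos (this.mpr h)]
    · rw [if_neg h, if_neg fun h' => h (this.mp h')]
  have h3 : ∑ v ∈ R, (if v ∈ lev r 2 I then 1 else 0) ≤ R.card := by
    refine (Finset.sum_le_sum (g := fun _ => 1) fun v _ => ?_).trans (by simp)
    split_ifs <;> omega
  rw [h2]
  exact Nat.add_le_add (Nat.mul_le_mul_right _ (Nat.sub_le _ _)) (Nat.mul_le_mul_left _ h3)

end Pool.Agent.H8.VR
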