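import Pool.Agent.H8.VR.Two

/-! Members of the region with exactly one neighbour in `I`: the exchange argument. -/

open scoped BigOperators

namespace Pool.Agent.H8.VR

open Pool.Agent.H28.Johnson Pool.Agent.H28.KW Pool.Agent.H28.Windows Pool.Agent.H8.VM
open Pool.Agent.H13.VM (stabs mem_stabs)

section aux

variable {n : ℕ}

private lemma union_card {r : ℕ} {z p : Finset (Fin n)} (hz : z ∈ Base n r)
    (hp : p ∈ Base n r) (h : adj r z p) : (z ∪ p).card = r + 1 := by
  have h1 := (adj_iff hz hp).mp h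
  have h2 := Finset.card_union_add_card_inter z p
  rw [mem_Base] at hz hp
  omega

private lemma row_card {r : ℕ} {z T : Finset (Fin n)}
    (hT : T.card + 1 = r) (S : Finset (Finset (Fin n)))
    (hS : ∀ p ∈ S, p ∈ Base n r ∧ z ∩ p = T) : S.card ≤ n := by
  classical
  refine le_trans (Finset.card_le_card (t := (Finset.univ : Finset (Fin n)).image
    (fun y => insert y T)) ?_) (Finset.card_image_le.trans (by simp))
  intro p hp
  obtain ⟨hpa, hpT⟩ := hS p hp
  have hpc := mem_Base.mp hpa
  have hsub : T ⊆ p := hpT ▸ Finset.inter_subset_right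
  have h1 : (p \ T).card = 1 := by
    rw [Finset.card_sdiff_of_subset hsub]; omega
  obtain ⟨y, hy⟩ := Finset.card_eq_one.mp h1
  rw [Finset.mem_image]
  refine ⟨y, Finset.mem_univ _, ?_⟩
  rw [Finset.insert_eq, ← hy, Finset.sdiff_union_of_subset hsub]

private lemma col_card {r : ℕ} {z Q : Finset (Fin n)}
    (hQ : Q.card = r + 1) (S : Finset (Finset (Fin n)))
    (hS : ∀ p ∈ S, p ∈ Base n r ∧ z ∪ p = Q) : S.card ≤ n := by
  classical
  refine le_trans (Finset.card_le_card (t := (Finset.univ : Finset (Fin n)).image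
    (fun y => Q.erase y)) ?_) (Finset.card_image_le.trans (by simp))
  intro p hp
  obtain ⟨hpa, hpT⟩ := hS p hp
  have hpc := mem_Base.mp hpa
  have hsub : p ⊆ Q := hpT ▸ Finset.subset_union_right
  have h1 : (Q \ p).card = 1 := by
    rw [Finset.card_sdiff_of_subset hsub]; omega
  obtain ⟨y, hy⟩ := Finset.card_eq_one.mp h1
  rw [Finset.mem_image]
  refine ⟨y, Finset.mem_univ _, ?_⟩
  rw [← Finset.sdiff_singleton_eq_erase, ← hy, Finset.sdiff_sdiff_eq_self hsub]

/-- two adjacent neighbours of `z` lie in a common row or in a common column -/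
private lemma rowcol {r : ℕ} {z p q : Finset (Fin n)} (hz : z ∈ Base n r)
    (hp : p ∈ Base n r) (hq : q ∈ Base n r) (hzp : adj r z p) (hzq : adj r z q)
    (hpq : p = q ∨ adj r p q) : z ∩ q = z ∩ p ∨ z ∪ q = z ∪ p := by
  classical
  rcases hpq with rfl | hpq
  · exact Or.inl rfl
  have h1 := (adj_iff hz hp).mp hzp
  have h2 := (adj_iff hz hq).mp hzq
  have h3 := (adj_iff hp hq).mp hpq
  by_cases h : p ∩ q ⊆ z
  · left
    have e1 : p ∩ q = z ∩ p := by
      apply Finset.eq_of_subset_of_card_le
      · intro x hx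
        exact Finset.mem_inter.mpr ⟨h hx, (Finset.mem_inter.mp hx).1⟩
      · omega
    have e2 : p ∩ q = z ∩ q := by
      apply Finset.eq_of_subset_of_card_le
      · intro x hx
        exact Finset.mem_inter.mpr ⟨h hx, (Finset.mem_inter.mp hx).2⟩
      · omega
    rw [← e1, ← e2]
  · right
    obtain ⟨y, hy, hyz⟩ := Finset.not_subset.mp h
    rw [Finset.mem_inter] at hy
    have u1 := union_card hz hp hzp
    have u2 := union_card hz hq hzq
    rw [mem_Base] at hz
    have e1 : insert y z = z ∪ p := by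
      apply Finset.eq_of_subset_of_card_le
      · intro x hx
        rw [Finset.mem_insert] at hx
        rcases hx with rfl | hx
        · exact Finset.mem_union_right _ hy.1
        · exact Finset.mem_union_left _ hx
      · rw [Finset.card_insert_of_notMem hyz]; omega
    have e2 : insert y z = z ∪ q := by
      apply Finset.eq_of_subset_of_card_le
      · intro x hx
        rw [Finset.mem_insert] at hx
        rcases hx with rfl | hx
        · exact Finset.mem_union_right _ hy.2
        · exact Finset.mem_union_left _ hx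
      · rw [Finset.card_insert_of_notMem hyz]; omega
    rw [← e1, ← e2]

private lemma local_bound {r : ℕ} {z : Finset (Fin n)} {P : Finset (Finset (Fin n))}
    (hz : z ∈ Base n r) (hP : ∀ p ∈ P, p ∈ nbh r z) :
    2 * (n * P.card) ≤ 8 * n ^ 2 + (apairs r P).card := by
  classical
  let B : Finset (Fin n) → Finset (Finset (Fin n)) := fun p =>
    P.filter (fun q => z ∩ q = z ∩ p) ∪ P.filter (fun q => z ∪ q = z ∪ p)
  have hB : ∀ p ∈ P, (B p).card ≤ 2 * n := by
    intro p hp
    have hp' := mem_nbh.mp (hP p hp)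
    have c1 : (z ∩ p).card + 1 = r := (adj_iff hz hp'.1).mp hp'.2
    have c2 := union_card hz hp'.1 hp'.2
    have r1 : (P.filter (fun q => z ∩ q = z ∩ p)).card ≤ n := by
      apply row_card (r := r) c1
      intro q hq
      rw [Finset.mem_filter] at hq
      exact ⟨(mem_nbh.mp (hP q hq.1)).1, hq.2⟩
    have r2 : (P.filter (fun q => z ∪ q = z ∪ p)).card ≤ n := by
      apply col_card (r := r) c2
      intro q hq
      rw [Finset.mem_filter] at hq
      exact ⟨(mem_nbh.mp (hP q hq.1)).1, hq.2⟩
    have := Finset.card_union_le (P.filter (fun q => z ∩ q = z ∩ p))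
      (P.filter (fun q => z ∪ q = z ∪ p))
    have e : (B p).card = (P.filter (fun q => z ∩ q = z ∩ p) ∪
      P.filter (fun q => z ∪ q = z ∪ p)).card := rfl
    omega
  have hcov : P ×ˢ P ⊆ apairs r P ∪ P.biUnion (fun p => (B p).image (fun q => (p, q))) := by
    rintro ⟨p, q⟩ hpq
    rw [Finset.mem_product] at hpq
    obtain ⟨hp, hq⟩ := hpq
    simp only at hp hq
    rw [Finset.mem_union]
    by_cases h : p = q ∨ adj r p q
    · right
      rw [Finset.mem_biUnion]
      refine ⟨p, hp, Finset.mem_image.mpr ⟨q, ?_, rfl⟩⟩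
      have hp' := mem_nbh.mp (hP p hp)
      have hq' := mem_nbh.mp (hP q hq)
      have := rowcol hz hp'.1 hq'.1 hp'.2 hq'.2 h
      rcases this with h' | h'
      · exact Finset.mem_union_left _ (Finset.mem_filter.mpr ⟨hq, h'⟩)
      · exact Finset.mem_union_right _ (Finset.mem_filter.mpr ⟨hq, h'⟩)
    · left
      push Not at h
      exact mem_apairs.mpr ⟨⟨hp, hq⟩, h⟩
  have hc3 : P.card * P.card ≤ (apairs r P).card + P.card * (2 * n) := by
    rw [← Finset.card_product]
    refine le_trans (Finset.card_le_card hcov) (le_trans (Finset.card_union_le _ _) ?_)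
    have : (P.biUnion (fun p => (B p).image (fun q => (p, q)))).card ≤ P.card * (2 * n) := by
      refine le_trans Finset.card_biUnion_le ?_
      refine le_trans (Finset.sum_le_sum (g := fun _ => 2 * n) ?_) ?_
      · intro p hp
        exact le_trans Finset.card_image_le (hB p hp)
      · rw [Finset.sum_const, smul_eq_mul]
    omega
  zify at hc3 ⊢
  nlinarith [sq_nonneg ((P.card : ℤ) - 2 * n), sq_nonneg (n : ℤ)]

open Classical in
/-- the unique neighbour -/
private noncomputable def un (r : ℕ) (I : Finset (Finset (Fin n))) (v : Finset (Fin n)) :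
    Finset (Fin n) := if h : ∃ u, nbr r I v = {u} then h.choose else ∅

private lemma un_spec {r : ℕ} {R I : Finset (Finset (Fin n))} {v : Finset (Fin n)}
    (hv : v ∈ one r R I) : nbr r I v = {un r I v} := by
  classical
  have h : ∃ u, nbr r I v = {u} := Finset.card_eq_one.mp (mem_one.mp hv).2
  rw [un, dif_pos h]
  exact h.choose_spec

private lemma un_mem {r : ℕ} {R I : Finset (Finset (Fin n))} {v : Finset (Fin n)}
    (hv : v ∈ one r R I) : un r I v ∈ I ∧ adj r v (un r I v) := by
  have h : un r I v ∈ nbr r I v := by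
    rw [un_spec hv]; exact Finset.mem_singleton_self _
  exact mem_nbr.mp h

private lemma un_uniq {r : ℕ} {R I : Finset (Finset (Fin n))} {v w : Finset (Fin n)}
    (hv : v ∈ one r R I) (hw : w ∈ I) (h : adj r v w) : w = un r I v := by
  have h : w ∈ nbr r I v := mem_nbr.mpr ⟨hw, h⟩
  rw [un_spec hv] at h
  exact Finset.mem_singleton.mp h

end aux

theorem one_raw {n r θ q : ℕ} (R : Finset (Finset (Fin n))) (hR : R ⊆ Base n r)
    (F U : Finset (Finset (Fin n)) → Finset (Finset (Fin n)))
    (h1 : ∀ I ∈ stabs r R, F I ⊆ I ∧ (F I).card ≤ q ∧ (U I).card ≤ θ)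
    (h2 : ∀ I ∈ stabs r R, ∀ z ∈ addR r R I, (z ∈ F (insert z I) ↔ z ∉ U I))
    (h3 : ∀ I ∈ stabs r R, ∀ u ∈ I, u ∉ F I → U (I.erase u) = U I) :
    n * ∑ I ∈ stabs r R, (one r R I).card ≤
      n * (θ * (stabs r R).card) + 8 * (n ^ 2 * (q * (stabs r R).card)) +
        2 * (n.choose r * (stabs r R).card) := by
  classical
  set s := (stabs r R).card with hs
  let u : Finset (Finset (Fin n)) → Finset (Fin n) → Finset (Fin n) := fun I v => un r I v
  let A4 : Finset (Finset (Fin n)) → Finset (Finset (Fin n)) := fun I =>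
    (one r R I).filter fun v => v ∉ U I ∧ u I v ∈ F I
  let A5 : Finset (Finset (Fin n)) → Finset (Finset (Fin n)) := fun I =>
    (one r R I).filter fun v => v ∉ U I ∧ u I v ∉ F I
  have hcover : ∀ I, one r R I ⊆ (U I ∪ A4 I) ∪ A5 I := by
    intro I v hv
    simp only [A4, A5, Finset.mem_union, Finset.mem_filter]
    tauto
  let V : Finset (Σ _ : Finset (Finset (Fin n)), Finset (Fin n)) :=
    (stabs r R).sigma fun I => (addR r R I) \ (U I)
  let W : Finset (Σ _ : (Σ _ : Finset (Finset (Fin n)), Finset (Fin n)), Finset (Fin n)) :=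
    V.sigma fun x => addR r R x.1 ∩ nbh r x.2
  have hlight : ∀ I ∈ stabs r R, ∀ v ∈ one r R I,
      I.erase (u I v) ∈ stabs r R ∧ u I v ∈ addR r R (I.erase (u I v)) ∧
      v ∈ addR r R (I.erase (u I v)) ∧ adj r v (u I v) ∧ adj r (u I v) v := by
    intro I hI v hv
    have hIs := mem_stabs.mp hI
    have hvB := (mem_one.mp hv).1
    obtain ⟨hu, hadj⟩ := un_mem hv
    have hadj' : adj r v (u I v) := hadj
    refine ⟨stabs_erase hI _, mem_addR_erase hI hu, ?_, hadj, adj_symm hadj⟩
    rw [mem_addR]
    refine ⟨hvB, ?_, ?_⟩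
    · intro hvI
      exact hIs.2 v (Finset.mem_of_mem_erase hvI) _ hu hadj
    · intro w hw ha
      have := un_uniq hv (Finset.mem_of_mem_erase hw) ha
      exact (Finset.mem_erase.mp hw).1 this
  have hA4 : ((stabs r R).sigma fun I => A4 I).card ≤ W.card := by
    apply Finset.card_le_card_of_injOn (fun x => ⟨⟨x.1.erase (u x.1 x.2), u x.1 x.2⟩, x.2⟩)
    · rintro ⟨I, v⟩ hx
      rw [Finset.mem_coe, Finset.mem_sigma] at hx
      obtain ⟨hI, hv⟩ := hx
      simp only at hI hv
      rw [Finset.mem_filter] at hv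
      obtain ⟨hvl, hvU, huF⟩ := hv
      obtain ⟨g1, g2, g3, g4, g5⟩ := hlight I hI v hvl
      rw [Finset.mem_coe, Finset.mem_sigma, Finset.mem_sigma]
      simp only
      refine ⟨⟨g1, ?_⟩, ?_⟩
      · rw [Finset.mem_sdiff]
        refine ⟨g2, ?_⟩
        have := h2 _ g1 _ g2
        rw [Finset.insert_erase (un_mem hvl).1] at this
        exact this.mp huF
      · rw [Finset.mem_inter]
        exact ⟨g3, mem_nbh.mpr ⟨hR (mem_addR.mp g3).1, g5⟩⟩
    · rintro ⟨I, v⟩ hx ⟨I', v'⟩ hx' h
      rw [Finset.mem_coe, Finset.mem_sigma] at hx hx'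
      have hv := (Finset.mem_filter.mp hx.2).1
      have hv' := (Finset.mem_filter.mp hx'.2).1
      simp only [Sigma.mk.injEq, heq_eq_eq] at h hv hv'
      obtain ⟨⟨e1, e2⟩, e3⟩ := h
      have m1 := (un_mem hv).1
      have m2 := (un_mem hv').1
      have : I = I' := by
        rw [← Finset.insert_erase m1, ← Finset.insert_erase m2]
        change insert (u I v) (I.erase (u I v)) = insert (u I' v') (I'.erase (u I' v'))
        rw [e1, e2]
      rw [this, e3]
  have hA5 : ((stabs r R).sigma fun I => A5 I).card ≤ W.card := by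
    apply Finset.card_le_card_of_injOn (fun x => ⟨⟨x.1.erase (u x.1 x.2), x.2⟩, u x.1 x.2⟩)
    · rintro ⟨I, v⟩ hx
      rw [Finset.mem_coe, Finset.mem_sigma] at hx
      obtain ⟨hI, hv⟩ := hx
      simp only at hI hv
      rw [Finset.mem_filter] at hv
      obtain ⟨hvl, hvU, huF⟩ := hv
      obtain ⟨g1, g2, g3, g4, g5⟩ := hlight I hI v hvl
      rw [Finset.mem_coe, Finset.mem_sigma, Finset.mem_sigma]
      simp only
      refine ⟨⟨g1, ?_⟩, ?_⟩
      · rw [Finset.mem_sdiff]
        refine ⟨g3, ?_⟩
        rw [h3 I hI (u I v) (un_mem hvl).1 huF]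
        exact hvU
      · rw [Finset.mem_inter]
        exact ⟨g2, mem_nbh.mpr ⟨hR (mem_addR.mp g2).1, g4⟩⟩
    · rintro ⟨I, v⟩ hx ⟨I', v'⟩ hx' h
      rw [Finset.mem_coe, Finset.mem_sigma] at hx hx'
      have hv := (Finset.mem_filter.mp hx.2).1
      have hv' := (Finset.mem_filter.mp hx'.2).1
      simp only [Sigma.mk.injEq, heq_eq_eq] at h hv hv'
      obtain ⟨⟨e1, e3⟩, e2⟩ := h
      have m1 := (un_mem hv).1
      have m2 := (un_mem hv').1
      have : I = I' := by
        rw [← Finset.insert_erase m1, ← Finset.insert_erase m2]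
        change insert (u I v) (I.erase (u I v)) = insert (u I' v') (I'.erase (u I' v'))
        rw [e1, e2]
      rw [this, e3]
  have hVcard : V.card ≤ q * s := by
    have : V.card ≤ ((stabs r R).sigma fun I => F I).card := by
      apply Finset.card_le_card_of_injOn (fun x => ⟨insert x.2 x.1, x.2⟩)
      · rintro ⟨I, z⟩ hx
        rw [Finset.mem_coe, Finset.mem_sigma, Finset.mem_sdiff] at hx
        obtain ⟨hI, hz, hzU⟩ := hx
        rw [Finset.mem_coe, Finset.mem_sigma]
        exact ⟨stabs_insert hI hz, (h2 I hI z hz).mpr hzU⟩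
      · rintro ⟨I, z⟩ hx ⟨I', z'⟩ hx' h
        rw [Finset.mem_coe, Finset.mem_sigma, Finset.mem_sdiff] at hx hx'
        simp only [Sigma.mk.injEq, heq_eq_eq] at h hx hx'
        obtain ⟨e1, e2⟩ := h
        subst e2
        have m1 := (mem_addR.mp hx.2.1).2.1
        have m2 := (mem_addR.mp hx'.2.1).2.1
        have : I = I' := by
          rw [← Finset.erase_insert m1, ← Finset.erase_insert m2, e1]
        rw [this]
    refine le_trans this ?_
    rw [Finset.card_sigma]
    refine le_trans (Finset.sum_le_sum (g := fun _ => q) fun I hI => (h1 I hI).2.1) ?_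
    rw [Finset.sum_const, smul_eq_mul, mul_comm]
  have hRc : R.card ≤ n.choose r := by
    rw [← card_Base n r]
    exact Finset.card_le_card hR
  have hW : 2 * (n * W.card) ≤ 8 * (n ^ 2 * (q * s)) + 2 * (n.choose r * s) := by
    have e1 : 2 * (n * W.card) = ∑ x ∈ V, 2 * (n * (addR r R x.1 ∩ nbh r x.2).card) := by
      rw [Finset.card_sigma, Finset.mul_sum, Finset.mul_sum]
    rw [e1]
    have e2 : ∑ x ∈ V, 2 * (n * (addR r R x.1 ∩ nbh r x.2).card) ≤
        ∑ x ∈ V, (8 * n ^ 2 + (apairs r (addR r R x.1 ∩ nbh r x.2)).card) := by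
      apply Finset.sum_le_sum
      intro x hx
      rw [Finset.mem_sigma, Finset.mem_sdiff] at hx
      exact local_bound (hR (mem_addR.mp hx.2.1).1) fun p hp => (Finset.mem_inter.mp hp).2
    refine le_trans e2 ?_
    rw [Finset.sum_add_distrib, Finset.sum_const, smul_eq_mul]
    have e3 : ∑ x ∈ V, (apairs r (addR r R x.1 ∩ nbh r x.2)).card ≤
        2 * (n.choose r * s) := by
      rw [Finset.sum_sigma]
      refine le_trans ?_ ((two_boundR r R).trans
        (Nat.mul_le_mul_left _ (Nat.mul_le_mul_right _ hRc)))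
      apply Finset.sum_le_sum
      intro I hI
      exact Finset.sum_le_sum_of_subset Finset.sdiff_subset
    have e4 : V.card * (8 * n ^ 2) ≤ 8 * (n ^ 2 * (q * s)) := by
      calc V.card * (8 * n ^ 2) ≤ (q * s) * (8 * n ^ 2) := Nat.mul_le_mul_right _ hVcard
        _ = 8 * (n ^ 2 * (q * s)) := by ring
    omega
  rw [Finset.card_sigma] at hA4 hA5
  have htot : ∑ I ∈ stabs r R, (one r R I).card ≤ θ * s + W.card + W.card := by
    calc ∑ I ∈ stabs r R, (one r R I).card
        ≤ ∑ I ∈ stabs r R, (θ + (A4 I).card + (A5 I).card) := by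
          apply Finset.sum_le_sum
          intro I hI
          have c0 := Finset.card_le_card (hcover I)
          have c1 := Finset.card_union_le (U I ∪ A4 I) (A5 I)
          have c2 := Finset.card_union_le (U I) (A4 I)
          have c7 := (h1 I hI).2.2
          omega
      _ = θ * s + ∑ I ∈ stabs r R, (A4 I).card + ∑ I ∈ stabs r R, (A5 I).card := by
          rw [Finset.sum_add_distrib, Finset.sum_add_distrib, Finset.sum_const,
            smul_eq_mul, mul_comm s θ]
      _ ≤ _ := by omega
  calc n * ∑ I ∈ stabs r R, (one r R I).card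
      ≤ n * (θ * s + W.card + W.card) := Nat.mul_le_mul_left _ htot
    _ = n * (θ * s) + 2 * (n * W.card) := by ring
    _ ≤ _ := by omega

end Pool.Agent.H8.VR
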