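import Pool.Agent.H8.VM.Defs

/-! H3: pairs at distance two inside a stable family. -/

open scoped BigOperators

namespace Pool.Agent.H8.VR

open Pool.Agent.H28.Johnson Pool.Agent.H28.KW Pool.Agent.H28.Windows Pool.Agent.H8.VM

open Classical in
private lemma dist_two {n r : ℕ} {I : Finset (Finset (Fin n))} (hI : I ∈ stables n r)
    {X : Finset (Fin n)} (hX : X ∈ I) :
    (I.filter fun Y => Y ≠ X ∧ (X ∩ Y).card + 2 = r).card ≤ (edges2 I X).card := by
  have hIB := (mem_stables.mp hI).1
  refine le_trans (Finset.card_le_card (t := (edges2 I X).image fun p => swp X p.1 p.2) ?_)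
    Finset.card_image_le
  intro Y hY
  rw [Finset.mem_filter] at hY
  obtain ⟨hYI, hne, hc⟩ := hY
  have hXc := mem_Base.mp (hIB hX)
  have hYc := mem_Base.mp (hIB hYI)
  have h1 : (X \ Y).card = 2 := by
    have := Finset.card_sdiff_add_card_inter X Y
    omega
  have h2 : (Y \ X).card = 2 := by
    have := Finset.card_sdiff_add_card_inter Y X
    rw [Finset.inter_comm] at this
    omega
  obtain ⟨a, b, hab, e1⟩ := Finset.card_eq_two.mp h1
  obtain ⟨c, d, hcd, e2⟩ := Finset.card_eq_two.mp h2
  have ha : a ∈ X \ Y := by rw [e1]; simp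
  have hb : b ∈ X \ Y := by rw [e1]; simp
  have hc' : c ∈ Y \ X := by rw [e2]; simp
  have hd : d ∈ Y \ X := by rw [e2]; simp
  have hswp : swp X (a, b) (c, d) = Y := by
    have e3 : swp X (a, b) (c, d) = (X \ (X \ Y)) ∪ (Y \ X) := by
      rw [e1, e2]; rfl
    rw [e3]
    ext z
    simp only [Finset.mem_union, Finset.mem_sdiff]
    tauto
  rw [Finset.mem_image]
  refine ⟨((a, b), (c, d)), ?_, hswp⟩
  rw [mem_edges2]
  rw [Finset.mem_sdiff] at ha hb hc' hd
  refine ⟨⟨?_, ?_⟩, ?_⟩
  · rw [Finset.mem_offDiag]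
    exact ⟨ha.1, hb.1, hab⟩
  · rw [Finset.mem_offDiag, Finset.mem_compl, Finset.mem_compl]
    exact ⟨hc'.2, hd.2, hcd⟩
  · rw [hswp]
    exact hYI

open Classical in
theorem pairs_lower {n r : ℕ} (hr : 2 ≤ r) {I : Finset (Finset (Fin n))}
    (hI : I ∈ stables n r) :
    (r.choose 2 * I.card) ^ 2 ≤
      n.choose (r - 2) * (r.choose 2 * I.card + ∑ U ∈ I, (edges2 I U).card) := by
  have hIB := (mem_stables.mp hI).1
  have hst := (mem_stables.mp hI).2
  set F := Base n (r - 2) with hF
  set b : Finset (Fin n) → ℕ := fun f => (I.filter fun v => f ⊆ v).card with hb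
  -- first moment
  have h1 : ∑ f ∈ F, b f = r.choose 2 * I.card := by
    have : ∑ f ∈ F, b f = ∑ v ∈ I, (F.filter fun f => f ⊆ v).card := by
      simp only [hb, Finset.card_filter]
      rw [Finset.sum_comm]
    rw [this]
    have h2 : ∀ v ∈ I, (F.filter fun f => f ⊆ v).card = r.choose 2 := by
      intro v hv
      have hvr : v.card = r := mem_Base.mp (hIB hv)
      have : F.filter (fun f => f ⊆ v) = v.powersetCard (r - 2) := by
        ext f
        rw [Finset.mem_filter, hF, mem_Base, Finset.mem_powersetCard]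
        tauto
      rw [this, Finset.card_powersetCard, hvr, Nat.choose_symm hr]
    rw [Finset.sum_congr rfl h2, Finset.sum_const, smul_eq_mul, mul_comm]
  -- second moment
  have h2 : ∑ f ∈ F, (b f) ^ 2 = ∑ v ∈ I, ∑ u ∈ I, (F.filter fun f => f ⊆ v ∧ f ⊆ u).card := by
    have e1 : ∀ f ∈ F, (b f) ^ 2 = ∑ v ∈ I, ∑ u ∈ I, if f ⊆ v ∧ f ⊆ u then 1 else 0 := by
      intro f _
      simp only [hb]
      rw [sq, Finset.card_filter, Finset.sum_mul_sum]
      refine Finset.sum_congr rfl fun v _ => Finset.sum_congr rfl fun u _ => ?_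
      by_cases h1 : f ⊆ v <;> by_cases h2 : f ⊆ u <;> simp [h1, h2]
    rw [Finset.sum_congr rfl e1, Finset.sum_comm]
    refine Finset.sum_congr rfl fun v _ => ?_
    rw [Finset.sum_comm]
    refine Finset.sum_congr rfl fun u _ => ?_
    rw [Finset.card_filter]
  have h3 : ∀ v ∈ I, ∑ u ∈ I, (F.filter fun f => f ⊆ v ∧ f ⊆ u).card ≤
      r.choose 2 + (edges2 I v).card := by
    intro v hv
    have hvr : v.card = r := mem_Base.mp (hIB hv)
    have e : ∀ u ∈ I, (F.filter fun f => f ⊆ v ∧ f ⊆ u).card ≤
        (if u = v then r.choose 2 else 0) + (if u ≠ v ∧ (v ∩ u).card + 2 = r then 1 else 0) := by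
      intro u hu
      have hur : u.card = r := mem_Base.mp (hIB hu)
      have hfil : F.filter (fun f => f ⊆ v ∧ f ⊆ u) = (v ∩ u).powersetCard (r - 2) := by
        ext f
        rw [Finset.mem_filter, hF, mem_Base, Finset.mem_powersetCard, Finset.subset_inter_iff]
        tauto
      rw [hfil, Finset.card_powersetCard]
      by_cases huv : u = v
      · subst huv
        simp only [if_true, Finset.inter_self, ne_eq, not_true_eq_false, false_and, if_false,
          add_zero]
        rw [hur, Nat.choose_symm hr]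
      · have hna := hst v hv u hu
        have hle : (v ∩ u).card + 2 ≤ r := by
          by_contra hcon
          exact hna ⟨fun h => huv h.symm, by omega⟩
        rw [if_neg huv, zero_add]
        by_cases hc : (v ∩ u).card + 2 = r
        · rw [if_pos ⟨huv, hc⟩]
          have h5 : (v ∩ u).card = r - 2 := by omega
          rw [h5, Nat.choose_self]
        · rw [if_neg (fun h => hc h.2)]
          rw [Nat.choose_eq_zero_of_lt (by omega)]
    refine (Finset.sum_le_sum e).trans ?_
    rw [Finset.sum_add_distrib, Finset.sum_ite_eq' I v (fun _ => r.choose 2), if_pos hv,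
      ← Finset.card_filter]
    exact Nat.add_le_add_left (dist_two hI hv) _
  have h4 : (∑ f ∈ F, b f) ^ 2 ≤ F.card * ∑ f ∈ F, (b f) ^ 2 := sq_sum_le_card_mul_sum_sq
  rw [h1, h2, hF, card_Base] at h4
  refine h4.trans (Nat.mul_le_mul_left _ ?_)
  refine (Finset.sum_le_sum h3).trans ?_
  rw [Finset.sum_add_distrib, Finset.sum_const, smul_eq_mul, mul_comm]

end Pool.Agent.H8.VR
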