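import Pool.Agent.H8.VR.Pairs
import Pool.Agent.H8.VR.Fiber

/-! H3, H4, H5: a stable family of positive density with few 4-cycles has many sites. -/

open scoped BigOperators
open Filter

namespace Pool.Agent.H8.VR

open Pool.Agent.H28.Johnson Pool.Agent.H28.KW Pool.Agent.H28.Windows Pool.Agent.H8.VM

/-! ### relabelling -/

/-- the relabelling `a -> c`, `b -> b`, `c -> d`, `d -> a` -/
def relP : Equiv.Perm (Fin 8) where
  toFun := ![4, 5, 2, 3, 6, 7, 0, 1]
  invFun := ![6, 7, 2, 3, 0, 1, 4, 5]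
  left_inv := by decide
  right_inv := by decide

/-- the relabelled cell -/
def relC {n : ℕ} (c : Cell n) : Cell n := (c.1, relP.toEmbedding.trans c.2)

lemma relC_at {n : ℕ} (c : Cell n) (Q : Finset (Fin 8)) :
    (relC c).at Q = c.at (Q.map relP.toEmbedding) := by
  unfold Cell.at Pool.Agent.H28.V8.loc relC
  rw [Finset.map_map]

lemma relC_mem {n r : ℕ} {c : Cell n} (hc : c ∈ cells n r) : relC c ∈ cells n r := by
  rw [mem_cells] at hc ⊢
  exact ⟨hc.1, fun i => hc.2 _⟩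

set_option maxRecDepth 20000 in
lemma relP_ab : Qab.map relP.toEmbedding = Qbc := by decide

set_option maxRecDepth 20000 in
lemma relP_ac : Qac.map relP.toEmbedding = Qcd := by decide

set_option maxRecDepth 20000 in
lemma relP_ad : Qad.map relP.toEmbedding = Qac := by decide

set_option maxRecDepth 20000 in
lemma relP_bc : Qbc.map relP.toEmbedding = Qbd := by decide

set_option maxRecDepth 20000 in
lemma relP_bd : Qbd.map relP.toEmbedding = Qab := by decide

/-- a path cell whose middle is in `I` gives a site -/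
lemma path_site {n r : ℕ} {I : Finset (Finset (Fin n))} {e : Cell n} (he : e ∈ pth r I)
    (hU : e.at Qbc ∈ I) :
    ∃ c ∈ cells n r, c.at Qac = e.at Qcd ∧ c.at Qab = e.at Qbc ∧ c.at Qab ∈ I ∧
      c.at Qad ∈ I ∧ c.at Qbc ∈ I ∧ c.at Qbd ∈ I := by
  obtain ⟨h0, h1, h2, h3⟩ := mem_pth.mp he
  refine ⟨relC e, relC_mem h0, ?_, ?_, ?_, ?_, ?_, ?_⟩
  · rw [relC_at, relP_ac]
  · rw [relC_at, relP_ab]
  · rw [relC_at, relP_ab]; exact hU
  · rw [relC_at, relP_ad]; exact h2
  · rw [relC_at, relP_bc]; exact h3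
  · rw [relC_at, relP_bd]; exact h1

/-! ### the number of path cells -/

open Classical in
/-- the sites -/
noncomputable def sitesOf (r : ℕ) {n : ℕ} (I : Finset (Finset (Fin n))) :
    Finset (Finset (Fin n)) :=
  (Base n r).filter fun S => ∃ c ∈ cells n r, c.at Qac = S ∧ c.at Qab ∈ I ∧ c.at Qad ∈ I ∧
    c.at Qbc ∈ I ∧ c.at Qbd ∈ I

open Classical in
/-- the members of `I` with a 4-cycle -/
noncomputable def cyc (r : ℕ) {n : ℕ} (I : Finset (Finset (Fin n))) :
    Finset (Finset (Fin n)) :=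
  I.filter fun U => ∃ c ∈ cells n r, c.at Qab = U ∧ c.at Qac ∈ I ∧ c.at Qad ∈ I ∧
    c.at Qbc ∈ I ∧ c.at Qbd ∈ I

lemma mem_cyc_of_bad {n r : ℕ} {I : Finset (Finset (Fin n))} {U : Finset (Fin n)}
    (hU : U ∈ I) (h : Bad4 r I U) : U ∈ cyc r I := by
  classical
  obtain ⟨e, he, heU, hcd⟩ := h
  obtain ⟨c, hc, h1, h2, h3, h4, h5, h6⟩ := path_site he (heU ▸ hU)
  rw [cyc, Finset.mem_filter]
  exact ⟨hU, c, hc, h2.trans heU, h1 ▸ hcd, h4, h5, h6⟩

open Classical in
/-- the good path cells are at most `2 n^4` times the sites -/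
lemma path_le_sites {n r : ℕ} {I : Finset (Finset (Fin n))} (hI : I ∈ stables n r) :
    ∑ U ∈ I \ cyc r I, ((pth r I).filter fun c => c.at Qbc = U).card ≤
      2 * n ^ 4 * (sitesOf r I).card := by
  set G := (pth r I).filter fun c => c.at Qbc ∈ I \ cyc r I with hG
  have h1 : ∑ U ∈ I \ cyc r I, ((pth r I).filter fun c => c.at Qbc = U).card = G.card := by
    rw [Finset.card_eq_sum_card_fiberwise (s := G) (f := fun c => c.at Qbc) (t := I \ cyc r I)
      (fun c hc => (Finset.mem_filter.mp hc).2)]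
    refine Finset.sum_congr rfl fun U hU => ?_
    congr 1
    ext c
    rw [hG, Finset.mem_filter, Finset.mem_filter, Finset.mem_filter]
    constructor
    · rintro ⟨h1, h2⟩
      exact ⟨⟨h1, h2 ▸ hU⟩, h2⟩
    · rintro ⟨⟨h1, _⟩, h2⟩
      exact ⟨h1, h2⟩
  rw [h1]
  have hcB : ∀ c ∈ cells n r, ∀ Q : Finset (Fin 8), Q.card = 4 → c.at Q ∈ Base n r := by
    intro c hc Q hQ
    rw [mem_Base]
    unfold Cell.at
    rw [Pool.Agent.H28.V8.loc_card (mem_cells.mp hc).2, hQ]
    exact (mem_cells.mp hc).1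
  refine Finset.card_le_mul_card_image_of_maps_to (f := fun c => c.at Qcd) ?_ _ ?_
  · intro c hc
    rw [hG, Finset.mem_filter, Finset.mem_sdiff] at hc
    obtain ⟨c', hc', k1, k2, k3, k4, k5, k6⟩ := path_site hc.1 hc.2.1
    rw [sitesOf, Finset.mem_filter]
    exact ⟨hcB c (mem_pth.mp hc.1).1 _ (by decide), c', hc', k1, k3, k4, k5, k6⟩
  · intro S hS
    rw [sitesOf, Finset.mem_filter] at hS
    refine le_trans (Finset.card_le_card ?_) (site_fiber hI hS.1)
    intro c hc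
    rw [Finset.mem_filter, hG, Finset.mem_filter, Finset.mem_sdiff] at hc
    rw [Finset.mem_filter]
    exact ⟨hc.1.1, hc.2, hc.1.2.1, fun h => hc.1.2.2 (mem_cyc_of_bad hc.1.2.1 h)⟩

/-! ### the final count -/

lemma edges2_le {n r : ℕ} {I : Finset (Finset (Fin n))} (hI : I ∈ stables n r)
    {S : Finset (Fin n)} (hS : S ∈ Base n r) : (edges2 I S).card ≤ n ^ 3 := by
  classical
  have h := Finset.card_le_mul_card_image_of_maps_to
    (s := edges2 I S) (t := (Finset.univ : Finset (Fin n × Fin n)))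
    (f := fun p => p.1) (fun _ _ => Finset.mem_univ _) n (fun x _ =>
      (edges2_row hI hS x).trans (Nat.sub_le n r))
  refine h.trans ?_
  rw [Finset.card_univ, Fintype.card_prod, Fintype.card_fin]
  exact le_of_eq (by ring)

/-- the binomial coefficient two steps below -/
lemma choose_sub_two {n r : ℕ} (hn : 100 ≤ n) (h49 : 49 * n ≤ 100 * r) (h51 : 100 * r ≤ 51 * n) :
    n.choose (r - 2) ≤ 2 * n.choose r := by
  obtain ⟨k, rfl⟩ : ∃ k, r = k + 2 := ⟨r - 2, by omega⟩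
  have e1 := Nat.choose_succ_right_eq n k
  have e2 := Nat.choose_succ_right_eq n (k + 1)
  simp only [Nat.add_sub_cancel]
  -- `C(n,k) (n-k) (n-k-1) = C(n,k+2) (k+2) (k+1)`
  have e3 : n.choose k * ((n - k) * (n - (k + 1))) = n.choose (k + 2) * ((k + 2) * (k + 1)) := by
    calc n.choose k * ((n - k) * (n - (k + 1))) = (n.choose k * (n - k)) * (n - (k + 1)) := by ring
      _ = (n.choose (k + 1) * (k + 1)) * (n - (k + 1)) := by rw [← e1]
      _ = (n.choose (k + 1) * (n - (k + 1))) * (k + 1) := by ring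
      _ = (n.choose (k + 2) * (k + 2)) * (k + 1) := by rw [← e2]
      _ = _ := by ring
  have h1 : (k + 2) * (k + 1) ≤ 2 * ((n - k) * (n - (k + 1))) := by
    obtain ⟨a, ha⟩ : ∃ a, n = k + 1 + a := ⟨n - (k + 1), by omega⟩
    have h2 : n - k = a + 1 := by omega
    have h3 : n - (k + 1) = a := by omega
    rw [h2, h3]
    have h4 : 100 * (k + 2) ≤ 51 * (k + 1 + a) := by rw [← ha]; exact h51
    have h5 : 100 ≤ k + 1 + a := by rw [← ha]; exact hn
    nlinarith
  have hpos : 0 < (n - k) * (n - (k + 1)) := Nat.mul_pos (by omega) (by omega)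
  have h2 : n.choose k * ((n - k) * (n - (k + 1))) ≤
      2 * n.choose (k + 2) * ((n - k) * (n - (k + 1))) := by
    rw [e3]
    calc n.choose (k + 2) * ((k + 2) * (k + 1)) ≤
        n.choose (k + 2) * (2 * ((n - k) * (n - (k + 1)))) := Nat.mul_le_mul_left _ h1
      _ = _ := by ring
  exact Nat.le_of_mul_le_mul_right h2 hpos

private lemma sites_arith {n κ N m T A0 : ℝ} (hn0 : 0 < n) (hκ : 0 < κ) (hm0 : 0 < m)
    (hN0 : 0 < N) (hT0 : 0 ≤ T) (hA1 : n ^ 2 / 10 ≤ A0) (hA2 : A0 ≤ n ^ 2 / 2)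
    (e3 : κ * N ≤ m * n) (hn1 : 200 ≤ n * κ) (e1 : (A0 * m) ^ 2 ≤ 2 * N * (A0 * m + T)) :
    m * (κ * n ^ 3 / 400) ≤ T := by
  have e2 : (n ^ 2 / 10 * m) ^ 2 ≤ (A0 * m) ^ 2 := by
    apply pow_le_pow_left₀ (by positivity)
    exact mul_le_mul_of_nonneg_right hA1 hm0.le
  have e4 : A0 * m ≤ n ^ 2 / 2 * m := mul_le_mul_of_nonneg_right hA2 hm0.le
  have e5 : n ^ 4 / 100 * m ^ 2 ≤ 2 * N * (n ^ 2 / 2 * m + T) := by
    calc n ^ 4 / 100 * m ^ 2 = (n ^ 2 / 10 * m) ^ 2 := by ring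
      _ ≤ 2 * N * (A0 * m + T) := e2.trans e1
      _ ≤ _ := mul_le_mul_of_nonneg_left (by linarith) (by positivity)
  have e6 : κ * (n ^ 4 / 100 * m ^ 2) ≤ 2 * (m * n) * (n ^ 2 / 2 * m + T) := by
    have := mul_le_mul_of_nonneg_left e5 hκ.le
    have e7 : κ * (2 * N * (n ^ 2 / 2 * m + T)) = 2 * (κ * N) * (n ^ 2 / 2 * m + T) := by ring
    rw [e7] at this
    exact this.trans (mul_le_mul_of_nonneg_right (by linarith) (by positivity))
  have e8 : (m * n) * (κ * (n ^ 3 * m) / 100) ≤ (m * n) * (2 * (n ^ 2 / 2 * m + T)) := by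
    calc (m * n) * (κ * (n ^ 3 * m) / 100) = κ * (n ^ 4 / 100 * m ^ 2) := by ring
      _ ≤ _ := e6
      _ = _ := by ring
  have e9 := le_of_mul_le_mul_left e8 (by positivity)
  have e10 : 200 * (n ^ 2 * m) ≤ (n * κ) * (n ^ 2 * m) :=
    mul_le_mul_of_nonneg_right hn1 (by positivity)
  have e11 : (n * κ) * (n ^ 2 * m) = κ * (n ^ 3 * m) := by ring
  have e12 : m * (κ * n ^ 3 / 400) = κ * (n ^ 3 * m) / 400 := by ring
  rw [e12]
  linarith

open Classical in
/-- H3, H4, H5 -/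
theorem many_sites (κ : ℝ) (hκ : 0 < κ) : ∃ c : ℝ, 0 < c ∧ ∀ᶠ n : ℕ in atTop, ∀ r : ℕ,
    49 * n ≤ 100 * r → 100 * r ≤ 51 * n → ∀ I ∈ stables n r,
      κ * ((n.choose r : ℝ) / n) ≤ I.card →
      ((I.filter fun U => ∃ c ∈ cells n r, c.at Qab = U ∧ c.at Qac ∈ I ∧ c.at Qad ∈ I ∧
        c.at Qbc ∈ I ∧ c.at Qbd ∈ I).card : ℝ) ≤ (n.choose r : ℝ) / n ^ 10 →
      c * (n.choose r : ℝ) ≤ ((Base n r).filter fun S => ∃ c ∈ cells n r, c.at Qac = S ∧
        c.at Qab ∈ I ∧ c.at Qad ∈ I ∧ c.at Qbc ∈ I ∧ c.at Qbd ∈ I).card := by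
  refine ⟨κ ^ 4 / 6400 ^ 3, by positivity, ?_⟩
  have hev1 : ∀ᶠ n : ℕ in atTop, (200 / κ : ℝ) ≤ n :=
    tendsto_natCast_atTop_atTop.eventually_ge_atTop _
  have hev2 : ∀ᶠ n : ℕ in atTop, (12800 / κ : ℝ) ≤ n :=
    tendsto_natCast_atTop_atTop.eventually_ge_atTop _
  have hev3 : ∀ᶠ n : ℕ in atTop, (1600 / κ ^ 2 : ℝ) ≤ n :=
    tendsto_natCast_atTop_atTop.eventually_ge_atTop _
  filter_upwards [hev1, hev2, hev3, eventually_ge_atTop 100] with n hn1 hn2 hn3 hn100 r h49 h51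
    I hI hIc hcyc
  change ((cyc r I).card : ℝ) ≤ _ at hcyc
  change κ ^ 4 / 6400 ^ 3 * (n.choose r : ℝ) ≤ ((sitesOf r I).card : ℝ)
  have hIB := (mem_stables.mp hI).1
  set N : ℝ := (n.choose r : ℝ) with hNdef
  have hn0 : (0 : ℝ) < n := by
    have : 0 < n := by omega
    exact_mod_cast this
  have hn100' : (100 : ℝ) ≤ n := by exact_mod_cast hn100
  have hN0 : 0 < N := by
    rw [hNdef]
    exact_mod_cast Nat.choose_pos (by omega : r ≤ n)
  have h49' : 49 * (n : ℝ) ≤ 100 * r := by exact_mod_cast h49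
  have h51' : 100 * (r : ℝ) ≤ 51 * n := by exact_mod_cast h51
  rw [div_le_iff₀ hκ] at hn1 hn2
  rw [div_le_iff₀ (by positivity)] at hn3
  set m : ℝ := (I.card : ℝ) with hm
  have hm0 : 0 < m := lt_of_lt_of_le (by positivity) hIc
  set T : ℝ := ∑ U ∈ I, ((edges2 I U).card : ℝ) with hT
  -- H3
  have hpl := pairs_lower (by omega : 2 ≤ r) hI
  have hc2 : ((r.choose 2 : ℕ) : ℝ) = (r : ℝ) * (r - 1) / 2 := Nat.cast_choose_two ℝ r
  have hcc : (n.choose (r - 2) : ℝ) ≤ 2 * N := by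
    rw [hNdef]
    exact_mod_cast choose_sub_two hn100 h49 h51
  have hpl' : ((r.choose 2 : ℕ) * m) ^ 2 ≤ (n.choose (r - 2) : ℝ) *
      ((r.choose 2 : ℕ) * m + T) := by
    rw [hm, hT]
    exact_mod_cast hpl
  have hT0 : 0 ≤ T := Finset.sum_nonneg fun _ _ => Nat.cast_nonneg _
  have hA1 : (n : ℝ) ^ 2 / 10 ≤ ((r.choose 2 : ℕ) : ℝ) := by rw [hc2]; nlinarith
  have hA2 : ((r.choose 2 : ℕ) : ℝ) ≤ (n : ℝ) ^ 2 / 2 := by rw [hc2]; nlinarith
  set A0 : ℝ := ((r.choose 2 : ℕ) : ℝ) with hA0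
  have hTlow : m * (κ * n ^ 3 / 400) ≤ T := by
    refine sites_arith hn0 hκ hm0 hN0 hT0 hA1 hA2 ?_ hn1 ?_
    · have : κ * (N / n) = κ * N / n := by ring
      rw [this, div_le_iff₀ hn0] at hIc
      exact hIc
    · have h0 : 0 ≤ A0 * m + T :=
        add_nonneg (mul_nonneg (Nat.cast_nonneg _) hm0.le) hT0
      exact hpl'.trans (mul_le_mul_of_nonneg_right hcc h0)
  set e0 : ℝ := κ * n ^ 3 / 800 with he0
  have he0p : 0 < e0 := by rw [he0]; positivity
  -- the good members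
  set G : Finset (Finset (Fin n)) := (I \ cyc r I).filter fun U => e0 ≤ ((edges2 I U).card : ℝ)
    with hG
  have hGT : T / 4 ≤ ∑ U ∈ G, ((edges2 I U).card : ℝ) := by
    have hcov : T ≤ ∑ U ∈ G, ((edges2 I U).card : ℝ) + ∑ U ∈ cyc r I, ((edges2 I U).card : ℝ) +
        ∑ U ∈ I.filter (fun U => ((edges2 I U).card : ℝ) < e0), ((edges2 I U).card : ℝ) := by
      have hsub : I ⊆ (G ∪ cyc r I) ∪ I.filter (fun U => ((edges2 I U).card : ℝ) < e0) := by
        intro U hU
        rw [Finset.mem_union, Finset.mem_union, hG, Finset.mem_filter, Finset.mem_filter,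
          Finset.mem_sdiff]
        by_cases h1 : U ∈ cyc r I
        · exact Or.inl (Or.inr h1)
        · by_cases h2 : ((edges2 I U).card : ℝ) < e0
          · exact Or.inr ⟨hU, h2⟩
          · push Not at h2
            exact Or.inl (Or.inl ⟨⟨hU, h1⟩, h2⟩)
      have hun : ∀ X Y : Finset (Finset (Fin n)),
          ∑ U ∈ X ∪ Y, ((edges2 I U).card : ℝ) ≤
            ∑ U ∈ X, ((edges2 I U).card : ℝ) + ∑ U ∈ Y, ((edges2 I U).card : ℝ) := by
        intro X Y
        rw [← Finset.sum_union_inter]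
        have : 0 ≤ ∑ U ∈ X ∩ Y, ((edges2 I U).card : ℝ) :=
          Finset.sum_nonneg fun _ _ => Nat.cast_nonneg _
        linarith
      have h1 := Finset.sum_le_sum_of_subset_of_nonneg hsub
        (f := fun U => ((edges2 I U).card : ℝ)) fun _ _ _ => Nat.cast_nonneg _
      have h2 := hun (G ∪ cyc r I) (I.filter (fun U => ((edges2 I U).card : ℝ) < e0))
      have h3 := hun G (cyc r I)
      rw [hT]
      linarith
    have hc1 : ∑ U ∈ cyc r I, ((edges2 I U).card : ℝ) ≤ T / 4 := by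
      have h1 : ∑ U ∈ cyc r I, ((edges2 I U).card : ℝ) ≤ (cyc r I).card • (n : ℝ) ^ 3 := by
        refine Finset.sum_le_card_nsmul _ _ _ fun U hU => ?_
        rw [cyc, Finset.mem_filter] at hU
        exact_mod_cast edges2_le hI (hIB hU.1)
      rw [nsmul_eq_mul] at h1
      have h2 : ((cyc r I).card : ℝ) * n ^ 3 ≤ N / n ^ 10 * n ^ 3 :=
        mul_le_mul_of_nonneg_right hcyc (by positivity)
      have h3 : N / (n : ℝ) ^ 10 * n ^ 3 = N / n ^ 7 := by
        rw [div_mul_eq_mul_div, div_eq_div_iff (by positivity) (by positivity)]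
        ring
      have h4 : N / (n : ℝ) ^ 7 ≤ T / 4 := by
        -- `T >= m κ n^3/400 >= κ^2 N n^2 / 400`
        have h5 : κ ^ 2 * N * n ^ 2 / 400 ≤ T := by
          have : κ * (N / n) * (κ * n ^ 3 / 400) ≤ m * (κ * n ^ 3 / 400) :=
            mul_le_mul_of_nonneg_right hIc (by positivity)
          have h6 : κ * (N / n) * (κ * n ^ 3 / 400) = κ ^ 2 * N * n ^ 2 / 400 := by
            field_simp
          linarith
        have h6 : N / (n : ℝ) ^ 7 ≤ N := by
          apply div_le_self hN0.le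
          exact one_le_pow₀ (by linarith)
        have h7 : 1600 * N ≤ κ ^ 2 * N * n ^ 2 := by
          have h8 : 1600 ≤ κ ^ 2 * (n : ℝ) ^ 2 := by
            have : κ ^ 2 * (n : ℝ) ≤ κ ^ 2 * (n : ℝ) ^ 2 := by
              apply mul_le_mul_of_nonneg_left _ (by positivity)
              nlinarith
            nlinarith
          nlinarith
        linarith
      linarith
    have hc2' : ∑ U ∈ I.filter (fun U => ((edges2 I U).card : ℝ) < e0),
        ((edges2 I U).card : ℝ) ≤ T / 2 := by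
      have h1 : ∑ U ∈ I.filter (fun U => ((edges2 I U).card : ℝ) < e0),
          ((edges2 I U).card : ℝ) ≤
          (I.filter (fun U => ((edges2 I U).card : ℝ) < e0)).card • e0 :=
        Finset.sum_le_card_nsmul _ _ _ fun U hU => (Finset.mem_filter.mp hU).2.le
      rw [nsmul_eq_mul] at h1
      have h2 : ((I.filter (fun U => ((edges2 I U).card : ℝ) < e0)).card : ℝ) ≤ m := by
        rw [hm]
        exact_mod_cast Finset.card_le_card (Finset.filter_subset _ _)
      have h3 := mul_le_mul_of_nonneg_right h2 he0p.le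
      have h4 : m * e0 = m * (κ * n ^ 3 / 400) / 2 := by rw [he0]; ring
      linarith
    linarith
  -- the paths
  have hpath : ∀ U ∈ G, ((edges2 I U).card : ℝ) / 2 * (κ * n / 6400) ^ 2 ≤
      (((pth r I).filter fun c => c.at Qbc = U).card : ℝ) := by
    intro U hU
    rw [hG, Finset.mem_filter, Finset.mem_sdiff] at hU
    obtain ⟨⟨hUI, _⟩, hUe⟩ := hU
    set e : ℝ := ((edges2 I U).card : ℝ) with he
    have hrn : r + 2 ≤ n := by omega
    have hAle : ((r * (r - 1) : ℕ) : ℝ) ≤ n ^ 2 := by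
      have : r * (r - 1) ≤ n * n := Nat.mul_le_mul (by omega) (by omega)
      rw [sq]
      exact_mod_cast this
    have hBle : (((n - r) * (n - r - 1) : ℕ) : ℝ) ≤ n ^ 2 := by
      have : (n - r) * (n - r - 1) ≤ n * n := Nat.mul_le_mul (by omega) (by omega)
      rw [sq]
      exact_mod_cast this
    have hA0' : 0 < r * (r - 1) := Nat.mul_pos (by omega) (by omega)
    have hB0' : 0 < (n - r) * (n - r - 1) := Nat.mul_pos (by omega) (by omega)
    have hAp : (0 : ℝ) < ((r * (r - 1) : ℕ) : ℝ) := by exact_mod_cast hA0'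
    have hBp : (0 : ℝ) < (((n - r) * (n - r - 1) : ℕ) : ℝ) := by exact_mod_cast hB0'
    have he16 : 16 * (n : ℝ) ^ 2 ≤ e := by
      refine le_trans ?_ hUe
      rw [he0]
      have : 12800 * (n : ℝ) ^ 2 ≤ (n * κ) * n ^ 2 :=
        mul_le_mul_of_nonneg_right hn2 (by positivity)
      nlinarith
    have hp := path_ge hI (hIB hUI) (r * (r - 1)) ((n - r) * (n - r - 1)) rfl rfl hA0' hB0'
      (by
        have : (8 : ℝ) * ((r * (r - 1) : ℕ) : ℝ) ≤ ((edges2 I U).card : ℝ) := by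
          rw [← he]; nlinarith
        exact_mod_cast this)
      (by
        have : (8 : ℝ) * (((n - r) * (n - r - 1) : ℕ) : ℝ) ≤ ((edges2 I U).card : ℝ) := by
          rw [← he]; nlinarith
        exact_mod_cast this)
    rw [← he] at hp
    refine le_trans ?_ hp
    have hfac : ∀ X : ℝ, 0 < X → X ≤ (n : ℝ) ^ 2 → κ * n / 6400 ≤ e / (4 * X) - 2 := by
      intro X hX0 hX
      have h1 : e / (4 * (n : ℝ) ^ 2) ≤ e / (4 * X) :=
        div_le_div_of_nonneg_left (by linarith [he0p]) (by positivity) (by linarith)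
      have h2 : κ * n / 3200 ≤ e / (4 * (n : ℝ) ^ 2) := by
        rw [le_div_iff₀ (by positivity)]
        have : κ * n / 3200 * (4 * (n : ℝ) ^ 2) = e0 := by rw [he0]; ring
        rw [this]
        exact hUe
      have h3 : 2 ≤ κ * n / 6400 := by linarith
      linarith
    have f1 := hfac _ hAp hAle
    have f2 := hfac _ hBp hBle
    have f0 : 0 ≤ κ * n / 6400 := by positivity
    have he00 : 0 ≤ e / 2 := by linarith [he0p]
    calc e / 2 * (κ * n / 6400) ^ 2 = e / 2 * ((κ * n / 6400) * (κ * n / 6400)) := by ring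
      _ ≤ e / 2 * ((e / (4 * ((r * (r - 1) : ℕ) : ℝ)) - 2) *
          (e / (4 * (((n - r) * (n - r - 1) : ℕ) : ℝ)) - 2)) :=
        mul_le_mul_of_nonneg_left (mul_le_mul f1 f2 f0 (f0.trans f1)) he00
      _ = _ := by ring
  -- conclusion
  have hup : ∑ U ∈ G, (((pth r I).filter fun c => c.at Qbc = U).card : ℝ) ≤
      2 * n ^ 4 * ((sitesOf r I).card : ℝ) := by
    have h1 : ∑ U ∈ G, (((pth r I).filter fun c => c.at Qbc = U).card : ℝ) ≤
        ∑ U ∈ I \ cyc r I, (((pth r I).filter fun c => c.at Qbc = U).card : ℝ) :=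
      Finset.sum_le_sum_of_subset_of_nonneg (Finset.filter_subset _ _)
        fun _ _ _ => Nat.cast_nonneg _
    refine h1.trans ?_
    exact_mod_cast path_le_sites hI
  have hlow : T / 4 * ((κ * n / 6400) ^ 2 / 2) ≤
      ∑ U ∈ G, (((pth r I).filter fun c => c.at Qbc = U).card : ℝ) := by
    calc T / 4 * ((κ * n / 6400) ^ 2 / 2) ≤
        (∑ U ∈ G, ((edges2 I U).card : ℝ)) * ((κ * n / 6400) ^ 2 / 2) :=
          mul_le_mul_of_nonneg_right hGT (by positivity)
      _ = ∑ U ∈ G, ((edges2 I U).card : ℝ) / 2 * (κ * n / 6400) ^ 2 := by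
          rw [Finset.sum_mul]
          exact Finset.sum_congr rfl fun U _ => by ring
      _ ≤ _ := Finset.sum_le_sum hpath
  have hT2 : κ ^ 2 * N * n ^ 2 / 400 ≤ T := by
    have : κ * (N / n) * (κ * n ^ 3 / 400) ≤ m * (κ * n ^ 3 / 400) :=
      mul_le_mul_of_nonneg_right hIc (by positivity)
    have h6 : κ * (N / n) * (κ * n ^ 3 / 400) = κ ^ 2 * N * n ^ 2 / 400 := by
      field_simp
    linarith
  have hfin : (2 * (n : ℝ) ^ 4) * (κ ^ 4 / 6400 ^ 3 * N) ≤
      (2 * (n : ℝ) ^ 4) * ((sitesOf r I).card : ℝ) := by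
    have h1 : κ ^ 2 * N * n ^ 2 / 400 / 4 * ((κ * n / 6400) ^ 2 / 2) ≤
        T / 4 * ((κ * n / 6400) ^ 2 / 2) := by
      apply mul_le_mul_of_nonneg_right _ (by positivity)
      linarith
    have h2 : κ ^ 2 * N * n ^ 2 / 400 / 4 * ((κ * n / 6400) ^ 2 / 2) =
        (2 * (n : ℝ) ^ 4) * (κ ^ 4 / 6400 ^ 3 * N) := by
      field_simp
      ring
    linarith
  exact le_of_mul_le_mul_left hfin (by positivity)

end Pool.Agent.H8.VR
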