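import Pool.Agent.H8.VR.Defs
import Pool.Agent.H8.VM.A3c_Small

/-! F3: few small stable subsets of a region. -/

open scoped BigOperators
open Filter

namespace Pool.Agent.H8.VR

open Pool.Agent.H28.Johnson Pool.Agent.H28.KW Pool.Agent.H28.Windows Pool.Agent.H8.VM
open Pool.Agent.H13.VM (stabs mem_stabs)

open Classical in
/-- F3 -/
theorem few_small_two (ξ : ℝ) (hξ : 0 < ξ) : ∃ κ : ℝ, 0 < κ ∧ ∀ᶠ n : ℕ in atTop, ∀ r : ℕ,
    49 * n ≤ 100 * r → 2 * r ≤ n → ∀ R ⊆ Base n r,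
      (((stabs r R).filter fun I => (I.card : ℝ) ≤ κ * ((n.choose r : ℝ) / n)).card : ℝ) ≤
        (2 : ℝ) ^ (ξ * ((n.choose r : ℝ) / n)) := by
  have hlog : 0 < Real.log 2 := Real.log_pos (by norm_num)
  obtain ⟨κ, hκ, hev⟩ := few_small (Real.log 2 * ξ) (by positivity)
  refine ⟨κ, hκ, ?_⟩
  filter_upwards [hev] with n hn r h49 h2 R hR
  have h := hn r (by omega) (by omega)
  have e : (2 : ℝ) ^ (ξ * ((n.choose r : ℝ) / n)) =
      Real.exp (Real.log 2 * ξ * ((n.choose r : ℝ) / n)) := by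
    rw [Real.rpow_def_of_pos (by norm_num)]
    congr 1
    ring
  rw [e]
  refine le_trans ?_ h
  have : ((stabs r R).filter fun I => (I.card : ℝ) ≤ κ * ((n.choose r : ℝ) / n)).card ≤
      ((stables n r).filter fun I => (I.card : ℝ) ≤ κ * ((n.choose r : ℝ) / n)).card :=
    Finset.card_le_card (Finset.filter_subset_filter _ (stabs_le hR))
  exact_mod_cast this

end Pool.Agent.H8.VR
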